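import Pool.Agent.JQ.Defs

/-!
Runs of a query algorithm with arbitrary contents of the joint cells and arbitrary words of the two
tables, samples of the joint cells, simulated runs and guessed runs.
-/

namespace Pool.Agent.JQ

open Finset

variable {n S H V : ℕ}

/-- The words read in the first `k` steps, latest first, when a read of the joint cell `a` after
the words `l` gives `c l a`, a read of the first table after the words `l` gives `w₁ l` and a read
of the second table gives `w₂ l`. -/
def Scheme.run (P : Scheme n S H V) (h : Fin H) (z : ℕ) (c : List (Fin V) → Fin S → Fin V)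
    (w₁ w₂ : List (Fin V) → Fin V) : ℕ → List (Fin V)
  | 0 => []
  | k + 1 =>
    (match P.next h z (P.run h z c w₁ w₂ k) with
      | .joint a => c (P.run h z c w₁ w₂ k) a
      | .first => w₁ (P.run h z c w₁ w₂ k)
      | .second => w₂ (P.run h z c w₁ w₂ k)) :: P.run h z c w₁ w₂ k

/-- The contents of the sampled joint cells: for the shift `b τ` the sample consists of the `s`
cells `b τ, b τ + 1, ..., b τ + s - 1` (modulo `S`). -/
def res {t s : ℕ} (M : Fin S → Fin V) (b : Fin t → Fin S) (τ : Fin t) (k : Fin s) : Fin V :=
  M ⟨((b τ : ℕ) + (k : ℕ)) % S, Nat.mod_lt _ (b τ).pos⟩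

/-- The content of the joint cell `a` according to the sample `μ`, when it is the `k`-th joint cell
(from `0` on) which is read; `v₀` if it is not in the sample. -/
def cell {t s : ℕ} (v₀ : Fin V) (b : Fin t → Fin S) (μ : Fin t → Fin s → Fin V) (k : ℕ)
    (a : Fin S) : Fin V :=
  if hk : k < t then
    if ha : (a - b ⟨k, hk⟩).val < s then μ ⟨k, hk⟩ ⟨(a - b ⟨k, hk⟩).val, ha⟩ else v₀
  else v₀

/-- All joint cells read along `l` are in the sample given by the shifts `b`. -/
def Scheme.inS {t : ℕ} (P : Scheme n S H V) (s : ℕ) (b : Fin t → Fin S) (h : Fin H) (z : ℕ) :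
    List (Fin V) → Prop
  | [] => True
  | _ :: l => P.inS s b h z l ∧ (match P.next h z l with
      | .joint a => ∃ hk : P.joints h z l < t, (a - b ⟨P.joints h z l, hk⟩).val < s
      | .first => True
      | .second => True)

/-- All joint cells read along `l` are in the sample, and for every `τ` not less than the number of
joint cells read, the cell `a₀` is in the sample of number `τ`. -/
def Scheme.full {t : ℕ} (P : Scheme n S H V) (s : ℕ) (b : Fin t → Fin S) (a₀ : Fin S)
    (h : Fin H) (z : ℕ) (l : List (Fin V)) : Prop :=
  P.inS s b h z l ∧ ∀ τ : Fin t, P.joints h z l ≤ (τ : ℕ) → (a₀ - b τ).val < s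

/-- The words of the second table are guessed: `g i` is the `i`-th of them. -/
def Scheme.guess {r : ℕ} (P : Scheme n S H V) (v₀ : Fin V) (h : Fin H) (z : ℕ)
    (g : Fin r → Fin V) (l : List (Fin V)) : Fin V :=
  if hi : P.seconds h z l < r then g ⟨P.seconds h z l, hi⟩ else v₀

/-- The words read in `R` steps by the query `z` when the joint cells hold `M`. -/
def Scheme.real (P : Scheme n S H V) (A B : Fin n → ℕ) (h : Fin H) (M : Fin S → Fin V)
    (z R : ℕ) : List (Fin V) :=
  P.run h z (fun _ a => M a) (P.word₁ A h z) (P.word₂ B h z) R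

/-- The words read in `R` steps by the query `z` when the joint cells are replaced by the
sample `μ`. -/
def Scheme.sim {t s : ℕ} (P : Scheme n S H V) (v₀ : Fin V) (b : Fin t → Fin S)
    (μ : Fin t → Fin s → Fin V) (A B : Fin n → ℕ) (h : Fin H) (z R : ℕ) : List (Fin V) :=
  P.run h z (fun l a => cell v₀ b μ (P.joints h z l) a) (P.word₁ A h z) (P.word₂ B h z) R

/-- The words read in `R` steps by the query `z` when the joint cells are replaced by the
sample `μ` and the words of the second table are replaced by the guess `g`. -/
def Scheme.gsim {t s r : ℕ} (P : Scheme n S H V) (v₀ : Fin V) (b : Fin t → Fin S)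
    (μ : Fin t → Fin s → Fin V) (A : Fin n → ℕ) (g : Fin r → Fin V) (h : Fin H) (z R : ℕ) :
    List (Fin V) :=
  P.run h z (fun l a => cell v₀ b μ (P.joints h z l) a) (P.word₁ A h z) (P.guess v₀ h z g) R

/-- The words read in `R` steps by the query `z` when the joint cells hold `M` and the words of the
second table are replaced by the guess `g`. -/
def Scheme.greal {r : ℕ} (P : Scheme n S H V) (v₀ : Fin V) (M : Fin S → Fin V)
    (A : Fin n → ℕ) (g : Fin r → Fin V) (h : Fin H) (z R : ℕ) : List (Fin V) :=
  P.run h z (fun _ a => M a) (P.word₁ A h z) (P.guess v₀ h z g) R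

theorem reads_eq_real (P : Scheme n S H V) (A B : Fin n → ℕ) (h : Fin H) (M : Fin S → Fin V)
    (z k : ℕ) : P.reads A B h M z k = P.real A B h M z k := by
  induction k with
  | zero => rfl
  | succ k ih =>
    show _ :: _ = _ :: _
    rw [ih]
    rfl

end Pool.Agent.JQ
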