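import Mathlib
import Pool.Agent.JQ.RDefs

namespace Pool.Agent.JQ

open Finset

variable {n S H V : ℕ}

/-- PROOF. `Fin.sub_def`: `(a - b τ).val = (S - b τ + a) % S`, and adding `b τ` modulo `S` gives
`a`. -/
theorem cell_res {t s : ℕ} (v₀ : Fin V) (b : Fin t → Fin S) (M : Fin S → Fin V) (k : ℕ)
    (hk : k < t) (a : Fin S) (ha : (a - b ⟨k, hk⟩).val < s) :
    cell v₀ b (res M b : Fin t → Fin s → Fin V) k a = M a := by
  unfold cell
  rw [dif_pos hk, dif_pos ha]
  unfold res
  congr 1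
  apply Fin.ext
  show ((b ⟨k, hk⟩ : ℕ) + (a - b ⟨k, hk⟩).val) % S = a.val
  have h1 : (a - b ⟨k, hk⟩).val = (S - (b ⟨k, hk⟩).val + a.val) % S := by
    rw [Fin.sub_def]
  have h2 : (b ⟨k, hk⟩).val < S := (b ⟨k, hk⟩).isLt
  rw [h1, Nat.add_mod_mod]
  have h3 : (b ⟨k, hk⟩).val + (S - (b ⟨k, hk⟩).val + a.val) = S + a.val := by omega
  rw [h3, Nat.add_mod_left, Nat.mod_eq_of_lt a.isLt]

private theorem agree_step {t s : ℕ} (P : Scheme n S H V) (v₀ : Fin V) (b : Fin t → Fin S)
    (M : Fin S → Fin V) (h : Fin H) (z : ℕ) (w₁ w₂ : List (Fin V) → Fin V) (k : ℕ)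
    (ih : P.run h z
      (fun l a => cell v₀ b (res M b : Fin t → Fin s → Fin V) (P.joints h z l) a) w₁ w₂ k =
      P.run h z (fun _ a => M a) w₁ w₂ k)
    (h2 : match P.next h z (P.run h z (fun _ a => M a) w₁ w₂ k) with
      | .joint a => ∃ hk : P.joints h z (P.run h z (fun _ a => M a) w₁ w₂ k) < t,
          (a - b ⟨P.joints h z (P.run h z (fun _ a => M a) w₁ w₂ k), hk⟩).val < s
      | .first => True
      | .second => True) :
    P.run h z (fun l a => cell v₀ b (res M b : Fin t → Fin s → Fin V) (P.joints h z l) a)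
      w₁ w₂ (k + 1) = P.run h z (fun _ a => M a) w₁ w₂ (k + 1) := by
  simp only [Scheme.run]
  rw [ih]
  congr 1
  generalize P.run h z (fun _ a => M a) w₁ w₂ k = l at h2 ⊢
  cases hn : P.next h z l with
  | joint a =>
    rw [hn] at h2
    obtain ⟨hk, ha⟩ := h2
    exact cell_res v₀ b M _ hk a ha
  | first => rfl
  | second => rfl

/-- PROOF. Induction on `k`: `inS` of `x :: l` implies `inS` of `l`, so by induction both runs of
length `k` are the same list `l`; the next words agree, in the joint case by `cell_res`. -/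
theorem agree₁ {t s : ℕ} (P : Scheme n S H V) (v₀ : Fin V) (b : Fin t → Fin S)
    (M : Fin S → Fin V) (h : Fin H) (z : ℕ) (w₁ w₂ : List (Fin V) → Fin V) (k : ℕ)
    (hf : P.inS s b h z (P.run h z (fun _ a => M a) w₁ w₂ k)) :
    P.run h z (fun l a => cell v₀ b (res M b : Fin t → Fin s → Fin V) (P.joints h z l) a)
      w₁ w₂ k = P.run h z (fun _ a => M a) w₁ w₂ k := by
  induction k with
  | zero => rfl
  | succ k ih =>
    exact agree_step P v₀ b M h z w₁ w₂ k (ih hf.1) hf.2

/-- PROOF. As `agree₁`. -/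
theorem agree₂ {t s : ℕ} (P : Scheme n S H V) (v₀ : Fin V) (b : Fin t → Fin S)
    (M : Fin S → Fin V) (h : Fin H) (z : ℕ) (w₁ w₂ : List (Fin V) → Fin V) (k : ℕ)
    (hf : P.inS s b h z
      (P.run h z (fun l a => cell v₀ b (res M b : Fin t → Fin s → Fin V) (P.joints h z l) a)
        w₁ w₂ k)) :
    P.run h z (fun l a => cell v₀ b (res M b : Fin t → Fin s → Fin V) (P.joints h z l) a)
      w₁ w₂ k = P.run h z (fun _ a => M a) w₁ w₂ k := by
  induction k with
  | zero => rfl
  | succ k ih =>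
    have e := ih hf.1
    have h2 := hf.2
    rw [e] at h2
    exact agree_step P v₀ b M h z w₁ w₂ k e h2

end Pool.Agent.JQ
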