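import Mathlib
import Pool.Agent.JP.AsyE

namespace Pool.Agent.JQ

open Finset

open Real in
/-- The same as `Pool/Agent/JP/Asy.lean` with the constant `2^44` instead of `2^40` (adapt that
proof as soon as it is delivered). -/
theorem asyG (t C : ℕ) (ht : 1 ≤ t) (ε : ℝ) (hε : 0 < ε) : ∃ n₀ : ℕ,
    ∀ n S H V r R : ℕ, n₀ ≤ n → 1 ≤ S → 1 ≤ H → 1 ≤ V → 1 ≤ R →
      (R : ℝ) * V ^ r ≤ (n : ℝ) ^ (1 - ε) → V ≤ n ^ C →
      log H ≤ (n : ℝ) ^ (1 - ε) / (R * V ^ r) →
      (∀ s : ℕ, 1 ≤ s → s ≤ S →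
        (n : ℝ) ^ 2 * s ^ t ≤
          2 ^ 44 * (1 + log H + (t * s + r) * log V + t * log (S / s)) * S ^ t ∨
        (n : ℝ) ≤ 2 ^ 44 * (1 + log H + (t * s + r) * log V + t * log (S / s)) * V ^ r *
          (1 + log n + R * log V)) →
      (n : ℝ) ^ ((t : ℝ) + 1 - ε) ≤ (S : ℝ) ^ t * (R * V ^ r) ^ (t - 1) := by
  have ht1 : (1 : ℝ) ≤ t := by exact_mod_cast ht
  have ht0 : (0 : ℝ) < t := by linarith
  set δ : ℝ := ε / (4 * t) with hδ
  have hδ0 : 0 < δ := by positivity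
  have hδt : t * δ = ε / 4 := by
    rw [hδ]
    field_simp
  have hδε : δ ≤ ε := by
    rw [hδ, div_le_iff₀ (by positivity)]
    nlinarith
  set D : ℝ := 3 + t * C + 2 * t with hD
  have hD1 : 1 ≤ D := by
    have : (0 : ℝ) ≤ t * C := by positivity
    linarith
  obtain ⟨n₀, hn₀⟩ := Pool.Agent.JP.asyE (2 ^ (44 + t) * D * (2 + C)) δ hδ0
  refine ⟨n₀, ?_⟩
  intro n S H V r R hn hS hH hV hR hRV hVC hlH hmain
  obtain ⟨hb, hl⟩ := hn₀ n hn
  set N : ℝ := (n : ℝ) with hN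
  set ell : ℝ := Real.log N with hell
  have hN1 : 1 ≤ N := by
    by_contra hc
    have h0 : n = 0 := by
      have : (n : ℝ) < 1 := not_le.1 hc
      have : n < 1 := by exact_mod_cast this
      omega
    rw [hell, hN, h0, Nat.cast_zero, Real.log_zero] at hl
    linarith
  have hN0 : 0 < N := by linarith
  have hR1 : (1 : ℝ) ≤ R := by exact_mod_cast hR
  have hV1 : (1 : ℝ) ≤ V := by exact_mod_cast hV
  have hS1 : (1 : ℝ) ≤ S := by exact_mod_cast hS
  have hVr1 : (1 : ℝ) ≤ (V : ℝ) ^ r := one_le_pow₀ hV1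
  set W : ℝ := (R : ℝ) * (V : ℝ) ^ r with hW
  have hW1 : 1 ≤ W := by nlinarith
  have hW0 : 0 < W := by linarith
  have hVW : (V : ℝ) ^ r ≤ W := by nlinarith
  have hEN : N ^ (1 - ε) ≤ N ^ (1 - δ) :=
    Real.rpow_le_rpow_of_exponent_le hN1 (by linarith)
  have hNN : N ^ (1 - δ) ≤ N := by
    conv_rhs => rw [← Real.rpow_one N]
    exact Real.rpow_le_rpow_of_exponent_le hN1 (by linarith)
  set x : ℝ := N ^ (1 - δ) / W with hx
  have hxW : x * W = N ^ (1 - δ) := div_mul_cancel₀ _ hW0.ne'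
  have hx1 : 1 ≤ x := by
    rw [hx, one_le_div hW0]
    exact hRV.trans hEN
  have hx0 : 0 < x := by linarith
  have hxN : x ≤ N ^ (1 - δ) := by
    rw [← hxW]
    nlinarith
  have hHx : Real.log H ≤ x := by
    refine hlH.trans ?_
    rw [hx]
    exact div_le_div_of_nonneg_right hEN hW0.le
  have hlV0 : 0 ≤ Real.log V := Real.log_nonneg hV1
  have hlV : Real.log V ≤ C * ell := by
    have h1 : (V : ℝ) ≤ N ^ C := by
      rw [hN]
      exact_mod_cast hVC
    have h2 := Real.log_le_log (by linarith) h1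
    rwa [Real.log_pow] at h2
  have hrV : r * Real.log V ≤ ell := by
    rw [← Real.log_pow]
    exact Real.log_le_log (by positivity) (hVW.trans (hRV.trans (hEN.trans hNN)))
  have hN2 : N ≤ N ^ 2 := by nlinarith
  rcases le_or_gt (N ^ 2) (S : ℝ) with hSn | hSn
  · have h1 : N ^ ((t : ℝ) + 1 - ε) ≤ (N ^ 2) ^ t := by
      rw [← pow_mul, ← Real.rpow_natCast]
      refine Real.rpow_le_rpow_of_exponent_le hN1 ?_
      push_cast
      linarith
    have h2 : (N ^ 2) ^ t ≤ (S : ℝ) ^ t := by gcongr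
    have h3 : (1 : ℝ) ≤ W ^ (t - 1) := one_le_pow₀ hW1
    have h4 : (0 : ℝ) ≤ (S : ℝ) ^ t := by positivity
    calc N ^ ((t : ℝ) + 1 - ε) ≤ (S : ℝ) ^ t := h1.trans h2
      _ ≤ (S : ℝ) ^ t * W ^ (t - 1) := le_mul_of_one_le_right h4 h3
  have hbr : ∀ s : ℕ, 1 ≤ s → (s : ℝ) ≤ x →
      1 + Real.log H + (t * s + r) * Real.log V + t * Real.log (S / s) ≤ D * x * ell := by
    intro s hs hsx
    have hs1 : (1 : ℝ) ≤ s := by exact_mod_cast hs
    have h4 : Real.log (S / s) ≤ 2 * ell := by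
      have h5 : (S : ℝ) / s ≤ N ^ 2 := by
        rw [div_le_iff₀ (by linarith)]
        have : (0 : ℝ) ≤ N ^ 2 := by positivity
        nlinarith
      have h6 := Real.log_le_log (by positivity) h5
      rw [Real.log_pow] at h6
      exact_mod_cast h6
    have h5 : (s : ℝ) * Real.log V ≤ x * (C * ell) := mul_le_mul hsx hlV hlV0 hx0.le
    have h6 : t * ((s : ℝ) * Real.log V) ≤ t * (x * (C * ell)) :=
      mul_le_mul_of_nonneg_left h5 ht0.le
    have h7 : t * Real.log (S / s) ≤ t * (2 * ell) := mul_le_mul_of_nonneg_left h4 ht0.le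
    have hxe : x ≤ x * ell := le_mul_of_one_le_right hx0.le hl
    have hee : ell ≤ x * ell := le_mul_of_one_le_left (by linarith) hx1
    have h8 : t * (2 * ell) ≤ 2 * t * (x * ell) := by
      have := mul_le_mul_of_nonneg_left hee (by positivity : (0 : ℝ) ≤ 2 * t)
      linarith
    have h9 : D * x * ell = 3 * (x * ell) + t * (x * (C * ell)) + 2 * t * (x * ell) := by
      rw [hD]
      ring
    rw [h9]
    have h10 : (t * (s : ℝ) + r) * Real.log V = t * ((s : ℝ) * Real.log V) + r * Real.log V := by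
      ring
    rw [h10]
    linarith
  have hell0 : 0 < ell := by linarith
  have hell2 : ell ≤ ell ^ 2 := by nlinarith
  have hC0 : (0 : ℝ) ≤ C := Nat.cast_nonneg C
  have hp44 : (2 : ℝ) ^ 44 ≤ 2 ^ (44 + t) := pow_le_pow_right₀ (by norm_num) (by omega)
  -- the two consequences of `asyE`
  have hb1 : 2 ^ 44 * D * (2 + C) * ell ^ 2 < N ^ δ := by
    refine lt_of_le_of_lt ?_ hb
    have : (0 : ℝ) ≤ D * (2 + C) * ell ^ 2 := by positivity
    calc 2 ^ 44 * D * (2 + C) * ell ^ 2 = 2 ^ 44 * (D * (2 + C) * ell ^ 2) := by ring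
      _ ≤ 2 ^ (44 + t) * (D * (2 + C) * ell ^ 2) := mul_le_mul_of_nonneg_right hp44 this
      _ = 2 ^ (44 + t) * D * (2 + C) * ell ^ 2 := by ring
  have hb2 : 2 ^ (44 + t) * D * ell ≤ N ^ δ := by
    refine le_trans ?_ hb.le
    have h1 : (0 : ℝ) ≤ 2 ^ (44 + t) * D := by positivity
    have h2 : ell ≤ (2 + C) * ell ^ 2 := by nlinarith
    calc 2 ^ (44 + t) * D * ell ≤ 2 ^ (44 + t) * D * ((2 + C) * ell ^ 2) :=
          mul_le_mul_of_nonneg_left h2 h1
      _ = 2 ^ (44 + t) * D * (2 + C) * ell ^ 2 := by ring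
  have hNδ : N ^ δ * N ^ (1 - δ) = N := by
    rw [← Real.rpow_add hN0, add_sub_cancel, Real.rpow_one]
  have hNδ0 : 0 < N ^ (1 - δ) := Real.rpow_pos_of_pos hN0 _
  have hfl1 : 1 ≤ ⌊x⌋₊ := Nat.le_floor (by exact_mod_cast hx1)
  have hflx : ((⌊x⌋₊ : ℕ) : ℝ) ≤ x := Nat.floor_le hx0.le
  have hflh : x / 2 ≤ ((⌊x⌋₊ : ℕ) : ℝ) := by
    have h1 := Nat.lt_floor_add_one x
    have h2 : (1 : ℝ) ≤ ((⌊x⌋₊ : ℕ) : ℝ) := by exact_mod_cast hfl1
    linarith
  set s₀ : ℕ := ⌊x⌋₊ with hs₀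
  -- the second alternative is impossible
  have halt : ∀ s : ℕ, 1 ≤ s → (s : ℝ) ≤ x →
      ¬ ((n : ℝ) ≤ 2 ^ 44 * (1 + Real.log H + (t * s + r) * Real.log V + t * Real.log (S / s)) *
        V ^ r * (1 + Real.log n + R * Real.log V)) := by
    intro s hs hsx hc
    have h1 := hbr s hs hsx
    have hRe : ell ≤ R * ell := le_mul_of_one_le_left hell0.le hR1
    have h2 : 1 + ell + R * Real.log V ≤ R * ((2 + C) * ell) := by
      have h3 : R * Real.log V ≤ R * (C * ell) := mul_le_mul_of_nonneg_left hlV (by linarith)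
      have h4 : R * ((2 + C) * ell) = 2 * (R * ell) + R * (C * ell) := by ring
      rw [h4]
      linarith
    have h20 : 0 ≤ 1 + ell + R * Real.log V := by positivity
    have hDx : 0 ≤ D * x * ell := by positivity
    have h5 : 2 ^ 44 * (1 + Real.log H + (t * s + r) * Real.log V + t * Real.log (S / s)) *
        V ^ r * (1 + ell + R * Real.log V) ≤
        2 ^ 44 * (D * x * ell) * V ^ r * (R * ((2 + C) * ell)) := by
      gcongr
    have h6 : 2 ^ 44 * (D * x * ell) * V ^ r * (R * ((2 + C) * ell)) =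
        2 ^ 44 * D * (2 + C) * ell ^ 2 * (x * W) := by
      rw [hW]
      ring
    rw [h6, hxW] at h5
    have h7 : 2 ^ 44 * D * (2 + C) * ell ^ 2 * N ^ (1 - δ) < N := by
      calc 2 ^ 44 * D * (2 + C) * ell ^ 2 * N ^ (1 - δ) < N ^ δ * N ^ (1 - δ) :=
            mul_lt_mul_of_pos_right hb1 hNδ0
        _ = N := hNδ
    have h8 : N ≤ 2 ^ 44 * (1 + Real.log H + (t * s + r) * Real.log V + t * Real.log (S / s)) *
        V ^ r * (1 + ell + R * Real.log V) := hc
    linarith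
  rcases le_or_gt S s₀ with hSs | hSs
  · exfalso
    have hSx : (S : ℝ) ≤ x := le_trans (by exact_mod_cast hSs) hflx
    rcases hmain S hS le_rfl with h1 | h1
    · have h2 := hbr S hS hSx
      have hSt : (0 : ℝ) < (S : ℝ) ^ t := by positivity
      have h3 : N ^ 2 ≤ 2 ^ 44 * (1 + Real.log H + (t * S + r) * Real.log V +
          t * Real.log (S / S)) := le_of_mul_le_mul_right h1 hSt
      have h4 : N ^ 2 ≤ 2 ^ 44 * (D * x * ell) := h3.trans (by linarith)
      have h5 : 2 ^ 44 * (D * x * ell) ≤ 2 ^ 44 * D * (2 + C) * ell ^ 2 * N ^ (1 - δ) := by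
        have h6 : 2 ^ 44 * (D * x * ell) = 2 ^ 44 * D * (ell * x) := by ring
        have h7 : 2 ^ 44 * D * (2 + C) * ell ^ 2 * N ^ (1 - δ) =
            2 ^ 44 * D * (((2 + C) * ell ^ 2) * N ^ (1 - δ)) := by ring
        rw [h6, h7]
        have h8 : ell ≤ (2 + C) * ell ^ 2 := by nlinarith
        gcongr
      have h7 : 2 ^ 44 * D * (2 + C) * ell ^ 2 * N ^ (1 - δ) < N := by
        calc 2 ^ 44 * D * (2 + C) * ell ^ 2 * N ^ (1 - δ) < N ^ δ * N ^ (1 - δ) :=
              mul_lt_mul_of_pos_right hb1 hNδ0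
          _ = N := hNδ
      linarith
    · exact halt S hS hSx h1
  · rcases hmain s₀ hfl1 hSs.le with h1 | h1
    · have h2 := hbr s₀ hfl1 hflx
      have hSt : (0 : ℝ) < (S : ℝ) ^ t := by positivity
      have h3 : N ^ 2 * (x / 2) ^ t ≤ 2 ^ 44 * (D * x * ell) * S ^ t := by
        have h4 : N ^ 2 * (x / 2) ^ t ≤ N ^ 2 * (s₀ : ℝ) ^ t := by gcongr
        refine h4.trans (h1.trans ?_)
        gcongr
      have h4 : N ^ 2 * x ^ (t - 1) ≤ 2 ^ (44 + t) * D * ell * S ^ t := by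
        have h5 : (x / 2) ^ t = x ^ (t - 1) * x / 2 ^ t := by
          rw [div_pow, ← pow_succ, Nat.sub_add_cancel ht]
        rw [h5] at h3
        have h6 : N ^ 2 * (x ^ (t - 1) * x / 2 ^ t) = (N ^ 2 * x ^ (t - 1)) * (x / 2 ^ t) := by
          ring
        have h7 : 2 ^ 44 * (D * x * ell) * (S : ℝ) ^ t =
            (2 ^ (44 + t) * D * ell * S ^ t) * (x / 2 ^ t) := by
          rw [pow_add]
          field_simp
        rw [h6, h7] at h3
        exact le_of_mul_le_mul_right h3 (by positivity)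
      have h5 : N ^ 2 * (N ^ (1 - δ)) ^ (t - 1) ≤ N ^ δ * ((S : ℝ) ^ t * W ^ (t - 1)) := by
        have h6 : N ^ 2 * (N ^ (1 - δ)) ^ (t - 1) = N ^ 2 * x ^ (t - 1) * W ^ (t - 1) := by
          rw [← hxW, mul_pow]
          ring
        rw [h6]
        have h7 : N ^ 2 * x ^ (t - 1) * W ^ (t - 1) ≤
            2 ^ (44 + t) * D * ell * S ^ t * W ^ (t - 1) :=
          mul_le_mul_of_nonneg_right h4 (by positivity)
        have h8 : 2 ^ (44 + t) * D * ell * S ^ t * W ^ (t - 1) =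
            2 ^ (44 + t) * D * ell * (S ^ t * W ^ (t - 1)) := by ring
        rw [h8] at h7
        refine h7.trans ?_
        exact mul_le_mul_of_nonneg_right hb2 (by positivity)
      have h6 : N ^ 2 * (N ^ (1 - δ)) ^ (t - 1) = N ^ δ * N ^ ((t : ℝ) + 1 - t * δ) := by
        rw [← Real.rpow_natCast N 2, ← Real.rpow_natCast (N ^ (1 - δ)) (t - 1),
          ← Real.rpow_mul hN0.le, ← Real.rpow_add hN0, ← Real.rpow_add hN0]
        congr 1
        rw [Nat.cast_sub ht]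
        push_cast
        ring
      rw [h6] at h5
      have h7 := le_of_mul_le_mul_left h5 (Real.rpow_pos_of_pos hN0 δ)
      refine le_trans ?_ h7
      refine Real.rpow_le_rpow_of_exponent_le hN1 ?_
      rw [hδt]
      linarith
    · exact absurd h1 (halt s₀ hfl1 hflx)


end Pool.Agent.JQ
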