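import Mathlib

namespace Pool.Agent.JQ

open Finset

/-- PROOF. Let `W = |κ| > 0`. For `b : κ` let `G_b` be the set of all `i` with `w L ≤ 8 W f b i`,
`p b i ≤ 8 c f b i` and `2^14 g b i ≤ f b i`. Suppose `w |ι| > 4 W |G_b|` for all `b`; summing
over `b` gives `w |ι| > 4 ∑ b, |G_b|`. If `i ∉ G_b` then
`f b i ≤ w L / (8 W) + p b i / (8 c) + 2^14 g b i`. So
`(5/8) L w |ι| ≤ ∑ b, ∑ i, f b i ≤ L ∑ b, |G_b| + (w L / 8) |ι| + (L w / 8) |ι| + (L w / 8) |ι|`,
that is `w |ι| ≤ 4 ∑ b, |G_b|` (divide by `L > 0`), a contradiction. -/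
theorem chE {ι κ : Type*} [Fintype ι] [Fintype κ] [Nonempty κ] (L c w : ℕ) (hL : 0 < L)
    (hc : 0 < c) (f g p : κ → ι → ℕ) (hf : ∀ b i, f b i ≤ L)
    (h1 : 5 * (L * w * Fintype.card ι) ≤ 8 * ∑ i, ∑ b, f b i)
    (h2 : ∀ i, ∑ b, p b i ≤ c * (L * w))
    (h3 : 2 ^ 17 * ∑ i, ∑ b, g b i ≤ L * w * Fintype.card ι) :
    ∃ b, ∃ G : Finset ι, w * Fintype.card ι ≤ 4 * (Fintype.card κ * G.card) ∧
      ∀ i ∈ G, w * L ≤ 8 * (Fintype.card κ * f b i) ∧ p b i ≤ 8 * c * f b i ∧
        2 ^ 14 * g b i ≤ f b i := by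
  classical
  set W := Fintype.card κ with hWdef
  have hW : 0 < W := Fintype.card_pos
  let G : κ → Finset ι := fun b => univ.filter fun i =>
    w * L ≤ 8 * (W * f b i) ∧ p b i ≤ 8 * c * f b i ∧ 2 ^ 14 * g b i ≤ f b i
  by_contra hcon
  push Not at hcon
  have hG : ∀ b, 4 * (W * (G b).card) < w * Fintype.card ι := by
    intro b
    by_contra hb
    push Not at hb
    obtain ⟨i, hi, h4⟩ := hcon b (G b) hb
    have hi' := (Finset.mem_filter.1 hi).2
    exact absurd hi'.2.2 (not_le.2 (h4 hi'.1 hi'.2.1))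
  -- sum over b
  have hsumG : 4 * ∑ b, (G b).card < w * Fintype.card ι := by
    have h5 : ∑ b, 4 * (W * (G b).card) < ∑ _b : κ, w * Fintype.card ι :=
      Finset.sum_lt_sum_of_nonempty Finset.univ_nonempty fun b _ => hG b
    have h6 : ∑ b, 4 * (W * (G b).card) = W * (4 * ∑ b, (G b).card) := by
      rw [Finset.mul_sum, Finset.mul_sum]
      exact Finset.sum_congr rfl fun b _ => by ring
    have h7 : ∑ _b : κ, w * Fintype.card ι = W * (w * Fintype.card ι) := by
      simp [hWdef]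
    rw [h6, h7] at h5
    exact Nat.lt_of_mul_lt_mul_left h5
  -- pointwise
  have hpt : ∀ i b, 8 * c * W * f b i ≤ 8 * c * W * L * (if i ∈ G b then 1 else 0) + c * w * L +
      W * p b i + 8 * c * W * 2 ^ 14 * g b i := by
    intro i b
    by_cases hi : i ∈ G b
    · rw [if_pos hi]
      have := Nat.mul_le_mul_left (8 * c * W) (hf b i)
      nlinarith [Nat.zero_le (c * w * L), Nat.zero_le (W * p b i),
        Nat.zero_le (8 * c * W * 2 ^ 14 * g b i)]
    · rw [if_neg hi]
      have hi' : ¬ (w * L ≤ 8 * (W * f b i) ∧ p b i ≤ 8 * c * f b i ∧ 2 ^ 14 * g b i ≤ f b i) :=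
        fun h => hi (Finset.mem_filter.2 ⟨Finset.mem_univ _, h⟩)
      by_cases ha : w * L ≤ 8 * (W * f b i)
      · by_cases hb : p b i ≤ 8 * c * f b i
        · have hc' : f b i < 2 ^ 14 * g b i := by
            by_contra h
            exact hi' ⟨ha, hb, not_lt.1 h⟩
          have := Nat.mul_le_mul_left (8 * c * W) hc'.le
          calc 8 * c * W * f b i ≤ 8 * c * W * (2 ^ 14 * g b i) := this
            _ = 8 * c * W * 2 ^ 14 * g b i := by ring
            _ ≤ _ := Nat.le_add_left _ _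
        · have := Nat.mul_le_mul_left W (not_le.1 hb).le
          calc 8 * c * W * f b i = W * (8 * c * f b i) := by ring
            _ ≤ W * p b i := this
            _ ≤ 8 * c * W * L * 0 + c * w * L + W * p b i := Nat.le_add_left _ _
            _ ≤ _ := Nat.le_add_right _ _
      · have := Nat.mul_le_mul_left c (not_le.1 ha).le
        calc 8 * c * W * f b i = c * (8 * (W * f b i)) := by ring
          _ ≤ c * (w * L) := this
          _ = 8 * c * W * L * 0 + c * w * L := by ring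
          _ ≤ 8 * c * W * L * 0 + c * w * L + W * p b i := Nat.le_add_right _ _
          _ ≤ _ := Nat.le_add_right _ _
  -- sum over everything
  have hs : ∑ i, ∑ b, 8 * c * W * f b i ≤ ∑ i, ∑ b, (8 * c * W * L * (if i ∈ G b then 1 else 0) +
      c * w * L + W * p b i + 8 * c * W * 2 ^ 14 * g b i) :=
    Finset.sum_le_sum fun i _ => Finset.sum_le_sum fun b _ => hpt i b
  have e1 : ∑ i, ∑ b, 8 * c * W * f b i = c * W * (8 * ∑ i, ∑ b, f b i) := by
    rw [Finset.mul_sum, Finset.mul_sum]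
    refine Finset.sum_congr rfl fun i _ => ?_
    rw [Finset.mul_sum, Finset.mul_sum]
    exact Finset.sum_congr rfl fun b _ => by ring
  have e2 : ∑ i, ∑ b, (8 * c * W * L * (if i ∈ G b then 1 else 0) +
      c * w * L + W * p b i + 8 * c * W * 2 ^ 14 * g b i) =
      8 * c * W * L * ∑ b, (G b).card + W * Fintype.card ι * (c * w * L) +
      W * ∑ i, ∑ b, p b i + c * W * (2 ^ 17 * ∑ i, ∑ b, g b i) := by
    have e3 : ∑ i, ∑ b, (if i ∈ G b then 1 else 0) = ∑ b, (G b).card := by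
      rw [Finset.sum_comm]
      refine Finset.sum_congr rfl fun b _ => ?_
      simp
    simp only [Finset.sum_add_distrib]
    rw [← e3]
    simp only [← Finset.mul_sum]
    simp only [Finset.sum_const, Finset.card_univ, smul_eq_mul]
    rw [← hWdef]
    ring
  have hp : ∑ i, ∑ b, p b i ≤ Fintype.card ι * (c * (L * w)) := by
    calc ∑ i, ∑ b, p b i ≤ ∑ _i : ι, c * (L * w) := Finset.sum_le_sum fun i _ => h2 i
      _ = _ := by simp
  rw [e1, e2] at hs
  have k1 := Nat.mul_le_mul_left (c * W) h1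
  have k2 := Nat.mul_le_mul_left W hp
  have k3 := Nat.mul_le_mul_left (c * W) h3
  have k4 : 2 * (c * W * L) * (w * Fintype.card ι) ≤ 2 * (c * W * L) * (4 * ∑ b, (G b).card) := by
    nlinarith [k1, k2, k3, hs]
  have hpos : 0 < 2 * (c * W * L) := by positivity
  have k5 := Nat.le_of_mul_le_mul_left k4 hpos
  omega

end Pool.Agent.JQ
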