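import Mathlib
import Pool.Agent.JQ.RDefs
import Pool.Agent.JP.Cyc

namespace Pool.Agent.JQ

open Finset Pool.Agent.JP

variable {n S H V : ℕ}

private theorem path_aux {t r R : ℕ} (P : Scheme n S H V) (hB : P.Bounded t r R) (s : ℕ)
    (a₀ : Fin S) (h : Fin H) (z : ℕ) (l : List (Fin V)) (hl : l.length ≤ R) :
    ∃ a : Fin t → Fin S, (∀ τ : Fin t, P.joints h z l ≤ (τ : ℕ) → a τ = a₀) ∧
      ∀ b : Fin t → Fin S, P.inS s b h z l ↔
        ∀ τ : Fin t, (τ : ℕ) < P.joints h z l → (a τ - b τ).val < s := by
  induction l with
  | nil =>
    refine ⟨fun _ => a₀, fun _ _ => rfl, fun b => ?_⟩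
    simp [Scheme.inS, Scheme.joints]
  | cons x l ih =>
    have hl' : l.length < R := by
      simp only [List.length_cons] at hl
      omega
    obtain ⟨a, ha, hb⟩ := ih hl'.le
    cases hn : P.next h z l with
    | joint a' =>
      have hk : P.joints h z l < t := (hB h z l a' hl' hn).1
      have hj : P.joints h z (x :: l) = P.joints h z l + 1 := by
        simp [Scheme.joints, hn]
      refine ⟨Function.update a ⟨P.joints h z l, hk⟩ a', ?_, ?_⟩
      · intro τ hτ
        rw [hj] at hτ
        have hne : τ ≠ ⟨P.joints h z l, hk⟩ := by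
          intro hc
          rw [hc] at hτ
          simp only at hτ
          omega
        rw [Function.update_of_ne hne]
        exact ha τ (by omega)
      · intro b
        have h1 : P.inS s b h z (x :: l) ↔ P.inS s b h z l ∧
            ∃ hk : P.joints h z l < t, (a' - b ⟨P.joints h z l, hk⟩).val < s := by
          simp [Scheme.inS, hn]
        rw [h1, hb b, hj]
        constructor
        · rintro ⟨h2, _, h3⟩ τ hτ
          by_cases hc : τ = ⟨P.joints h z l, hk⟩
          · rw [hc, Function.update_self]
            exact h3
          · rw [Function.update_of_ne hc]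
            refine h2 τ ?_
            have : (τ : ℕ) ≠ P.joints h z l := fun hh => hc (Fin.ext hh)
            omega
        · intro h2
          refine ⟨fun τ hτ => ?_, hk, ?_⟩
          · have h3 := h2 τ (by omega)
            have hne : τ ≠ ⟨P.joints h z l, hk⟩ := by
              intro hc
              rw [hc] at hτ
              simp only at hτ
              omega
            rw [Function.update_of_ne hne] at h3
            exact h3
          · have h3 := h2 ⟨P.joints h z l, hk⟩ (by simp)
            rw [Function.update_self] at h3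
            exact h3
    | first =>
      have hj : P.joints h z (x :: l) = P.joints h z l := by
        simp [Scheme.joints, hn]
      refine ⟨a, by rw [hj]; exact ha, fun b => ?_⟩
      have h1 : P.inS s b h z (x :: l) ↔ P.inS s b h z l := by
        simp [Scheme.inS, hn]
      rw [h1, hj]
      exact hb b
    | second =>
      have hj : P.joints h z (x :: l) = P.joints h z l := by
        simp [Scheme.joints, hn]
      refine ⟨a, by rw [hj]; exact ha, fun b => ?_⟩
      have h1 : P.inS s b h z (x :: l) ↔ P.inS s b h z l := by
        simp [Scheme.inS, hn]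
      rw [h1, hj]
      exact hb b

/-- PROOF. By induction on `l` one finds `a : ℕ → Fin S` with `a τ = a₀` for `τ ≥ joints l`,
`joints l ≤ t` and, for all `b`, `inS s b h z l ↔ ∀ τ : Fin t, τ < joints l → (a τ - b τ).val < s`: for
`x :: l` with `P.next h z l = .joint a'` update the function at `joints l` (which is `< t` by
`Bounded`, as `l.length < R`) with `a'`; otherwise keep it. Together with the second part of `full`
this gives the claim. -/
theorem path {t r R : ℕ} (P : Scheme n S H V) (hB : P.Bounded t r R) (s : ℕ) (a₀ : Fin S)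
    (h : Fin H) (z : ℕ) (l : List (Fin V)) (hl : l.length ≤ R) :
    ∃ a : Fin t → Fin S, ∀ b : Fin t → Fin S,
      P.full s b a₀ h z l ↔ ∀ τ, (a τ - b τ).val < s := by
  obtain ⟨a, ha, hb⟩ := path_aux P hB s a₀ h z l hl
  refine ⟨a, fun b => ?_⟩
  unfold Scheme.full
  rw [hb b]
  constructor
  · rintro ⟨h1, h2⟩ τ
    by_cases hτ : (τ : ℕ) < P.joints h z l
    · exact h1 τ hτ
    · rw [ha τ (not_lt.1 hτ)]
      exact h2 τ (not_lt.1 hτ)
  · intro h1
    refine ⟨fun τ _ => h1 τ, fun τ hτ => ?_⟩
    have h2 := h1 τ
    rw [ha τ hτ] at h2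
    exact h2

open scoped Classical in
/-- PROOF. `path` and `cyc` (`Finset.filter_congr`, the decidability instances differ: use
`Finset.filter_congr_decidable`, `convert` or `simp only`). -/
theorem full_count {t r R s : ℕ} (P : Scheme n S H V) (hB : P.Bounded t r R) (hs : s ≤ S)
    (a₀ : Fin S) (h : Fin H) (z : ℕ) (l : List (Fin V)) (hl : l.length ≤ R) :
    ((univ : Finset (Fin t → Fin S)).filter fun b => P.full s b a₀ h z l).card = s ^ t := by
  obtain ⟨a, ha⟩ := path P hB s a₀ h z l hl
  rw [← cyc hs a]
  congr 1
  ext b
  simp only [mem_filter, mem_univ, true_and]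
  exact ha b

end Pool.Agent.JQ
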