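import Mathlib
import Pool.Agent.JQ.RDefs

namespace Pool.Agent.JQ

open Finset

variable {n S H V : ℕ}

theorem length_run (P : Scheme n S H V) (h : Fin H) (z : ℕ)
    (c : List (Fin V) → Fin S → Fin V) (w₁ w₂ : List (Fin V) → Fin V) (k : ℕ) :
    (P.run h z c w₁ w₂ k).length = k := by
  induction k with
  | zero => rfl
  | succ k ih =>
    show (_ :: P.run h z c w₁ w₂ k).length = k + 1
    rw [List.length_cons, ih]

/-- Rectangularity. PROOF. Induction on `k`. Equality of the lists of length `k + 1` gives equality
of the lists of length `k`, call them `l`; by induction the mixed run of length `k` is `l` too, and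
its next word is `c l a`, `w₁ l` or `w₂' l`, according to `P.next h z l`, and in the last case
`w₂' l = w₂ l` by equality of the heads. -/
theorem run_rect (P : Scheme n S H V) (h : Fin H) (z : ℕ)
    (c : List (Fin V) → Fin S → Fin V) (w₁ w₂ w₁' w₂' : List (Fin V) → Fin V) (k : ℕ)
    (he : P.run h z c w₁ w₂ k = P.run h z c w₁' w₂' k) :
    P.run h z c w₁ w₂' k = P.run h z c w₁ w₂ k := by
  induction k with
  | zero => rfl
  | succ k ih =>
    have e0 : ∀ u₁ u₂ : List (Fin V) → Fin V, P.run h z c u₁ u₂ (k + 1) =
        (match P.next h z (P.run h z c u₁ u₂ k) with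
          | .joint a => c (P.run h z c u₁ u₂ k) a
          | .first => u₁ (P.run h z c u₁ u₂ k)
          | .second => u₂ (P.run h z c u₁ u₂ k)) :: P.run h z c u₁ u₂ k := fun _ _ => rfl
    rw [e0 w₁ w₂, e0 w₁' w₂'] at he
    rw [e0 w₁ w₂', e0 w₁ w₂]
    obtain ⟨hh, ht⟩ := List.cons.inj he
    rw [ih ht]
    rw [← ht] at hh
    generalize P.run h z c w₁ w₂ k = l at hh ⊢
    cases hn : P.next h z l with
    | joint a => rfl
    | first => rfl
    | second =>
      rw [hn] at hh
      exact congrArg (· :: l) hh.symm

end Pool.Agent.JQ
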