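import Mathlib
import Pool.Agent.JQ.RDefs

namespace Pool.Agent.JQ

open Finset

variable {n S H V : ℕ}

open Classical in
/-- The queries `L + ζ` which are answered `false` and whose run is in the sample. -/
noncomputable def Scheme.Nset {t : ℕ} (P : Scheme n S H V) (s : ℕ) (b : Fin t → Fin S)
    (a₀ : Fin S) (R L : ℕ) (A B : Fin n → ℕ) (h : Fin H) (M : Fin S → Fin V) :
    Finset (Fin L) :=
  univ.filter fun ζ : Fin L =>
    P.full s b a₀ h (L + (ζ : ℕ)) (P.real A B h M (L + (ζ : ℕ)) R) ∧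
    P.ans h (L + (ζ : ℕ)) (P.real A B h M (L + (ζ : ℕ)) R) = false

open Classical in
/-- The queries `L + ζ` whose run is in the sample for some guess of the words of the second
table. -/
noncomputable def Scheme.Pset {t s : ℕ} (P : Scheme n S H V) (v₀ : Fin V) (b : Fin t → Fin S)
    (a₀ : Fin S) (r R L : ℕ) (μ : Fin t → Fin s → Fin V) (A : Fin n → ℕ) (h : Fin H) :
    Finset (Fin L) :=
  univ.filter fun ζ : Fin L => ∃ g : Fin r → Fin V,
    P.full s b a₀ h (L + (ζ : ℕ)) (P.gsim v₀ b μ A g h (L + (ζ : ℕ)) R)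

theorem Scheme.mem_Nset {t : ℕ} (P : Scheme n S H V) (s : ℕ) (b : Fin t → Fin S)
    (a₀ : Fin S) (R L : ℕ) (A B : Fin n → ℕ) (h : Fin H) (M : Fin S → Fin V) (ζ : Fin L) :
    ζ ∈ P.Nset s b a₀ R L A B h M ↔
      P.full s b a₀ h (L + (ζ : ℕ)) (P.real A B h M (L + (ζ : ℕ)) R) ∧
      P.ans h (L + (ζ : ℕ)) (P.real A B h M (L + (ζ : ℕ)) R) = false := by
  classical
  rw [Scheme.Nset, mem_filter]
  simp

theorem Scheme.mem_Pset {t s : ℕ} (P : Scheme n S H V) (v₀ : Fin V) (b : Fin t → Fin S)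
    (a₀ : Fin S) (r R L : ℕ) (μ : Fin t → Fin s → Fin V) (A : Fin n → ℕ) (h : Fin H)
    (ζ : Fin L) :
    ζ ∈ P.Pset v₀ b a₀ r R L μ A h ↔ ∃ g : Fin r → Fin V,
      P.full s b a₀ h (L + (ζ : ℕ)) (P.gsim v₀ b μ A g h (L + (ζ : ℕ)) R) := by
  classical
  rw [Scheme.Pset, mem_filter]
  simp

end Pool.Agent.JQ
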