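import Mathlib
import Pool.Agent.JQ.SDefs
import Pool.Agent.JQ.Path
import Pool.Agent.JQ.RunR

namespace Pool.Agent.JQ

open Finset Pool.Agent.JP

variable {n S H V : ℕ}

/-- PROOF. Exchange the sums: the left side is
`∑ ζ ∈ Z, #{b | ζ ∈ Nset b}`, and `#{b | ζ ∈ Nset b}` is `#{b | full b (real ...)} = s^t` (by
`full_count` and `length_run`) if the answer is `false`, and `0` otherwise. -/
theorem cntE {t r R s : ℕ} (P : Scheme n S H V) (hB : P.Bounded t r R) (hs : s ≤ S)
    (a₀ : Fin S) (A B : Fin n → ℕ) (h : Fin H) (M : Fin S → Fin V) (L : ℕ)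
    (Z : Finset (Fin L)) :
    ∑ b : Fin t → Fin S, ((P.Nset s b a₀ R L A B h M).filter fun ζ => ζ ∈ Z).card ≤
      (Z.filter fun ζ : Fin L =>
        P.ans h (L + (ζ : ℕ)) (P.real A B h M (L + (ζ : ℕ)) R) = false).card * s ^ t := by
  classical
  have h1 : ∀ b : Fin t → Fin S, ((P.Nset s b a₀ R L A B h M).filter fun ζ => ζ ∈ Z).card =
      ((Z.filter fun ζ : Fin L =>
        P.ans h (L + (ζ : ℕ)) (P.real A B h M (L + (ζ : ℕ)) R) = false).filter fun ζ : Fin L =>
        P.full s b a₀ h (L + (ζ : ℕ)) (P.real A B h M (L + (ζ : ℕ)) R)).card := by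
    intro b
    congr 1
    ext ζ
    simp only [mem_filter, Scheme.mem_Nset]
    tauto
  rw [Finset.sum_congr rfl fun b _ => h1 b]
  have h2 := Finset.sum_card_bipartiteAbove_eq_sum_card_bipartiteBelow
    (s := (univ : Finset (Fin t → Fin S)))
    (t := Z.filter fun ζ : Fin L =>
        P.ans h (L + (ζ : ℕ)) (P.real A B h M (L + (ζ : ℕ)) R) = false)
    (fun b (ζ : Fin L) => P.full s b a₀ h (L + (ζ : ℕ)) (P.real A B h M (L + (ζ : ℕ)) R))
  simp only [Finset.bipartiteAbove, Finset.bipartiteBelow] at h2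
  rw [h2]
  refine (Finset.sum_le_card_nsmul
    (Z.filter fun ζ : Fin L =>
        P.ans h (L + (ζ : ℕ)) (P.real A B h M (L + (ζ : ℕ)) R) = false)
    (fun ζ : Fin L => ((univ : Finset (Fin t → Fin S)).filter fun b =>
      P.full s b a₀ h (L + (ζ : ℕ)) (P.real A B h M (L + (ζ : ℕ)) R)).card) (s ^ t) ?_).trans
      (le_of_eq (smul_eq_mul _ _))
  intro ζ _
  refine le_of_eq ?_
  rw [← full_count P hB hs a₀ h (L + (ζ : ℕ)) (P.real A B h M (L + (ζ : ℕ)) R)
    (length_run P h _ _ _ _ R).le]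

end Pool.Agent.JQ
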