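import Mathlib
import Pool.Agent.JQ.SDefs
import Pool.Agent.JQ.Path
import Pool.Agent.JQ.RunR

namespace Pool.Agent.JQ

open Finset

variable {n S H V : ℕ}

/-- PROOF. Exchange the sums: the right side is
`∑ ζ, #{b | ζ ∈ Nset b} ≥ ∑ ζ ∈ Z, #{b | full b (real ...)} = |Z| s^t` by `full_count`
and `length_run`. -/
theorem cntN {t r R s : ℕ} (P : Scheme n S H V) (hB : P.Bounded t r R) (hs : s ≤ S)
    (a₀ : Fin S) (A B : Fin n → ℕ) (h : Fin H) (M : Fin S → Fin V) (L : ℕ)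
    (Z : Finset (Fin L))
    (hZ : ∀ ζ ∈ Z, P.ans h (L + (ζ : ℕ)) (P.real A B h M (L + (ζ : ℕ)) R) = false) :
    Z.card * s ^ t ≤ ∑ b : Fin t → Fin S, (P.Nset s b a₀ R L A B h M).card := by
  classical
  have h1 : ∀ b : Fin t → Fin S, (P.Nset s b a₀ R L A B h M).card =
      ∑ ζ : Fin L, if ζ ∈ P.Nset s b a₀ R L A B h M then 1 else 0 := by
    intro b
    simp
  have h2 : ∀ ζ ∈ Z, s ^ t ≤
      ∑ b : Fin t → Fin S, if ζ ∈ P.Nset s b a₀ R L A B h M then 1 else 0 := by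
    intro ζ hζ
    have hl : (P.real A B h M (L + (ζ : ℕ)) R).length ≤ R := (length_run P _ _ _ _ _ R).le
    have hc := full_count P hB hs a₀ h (L + (ζ : ℕ)) (P.real A B h M (L + (ζ : ℕ)) R) hl
    rw [← Finset.card_filter, ← hc]
    refine Finset.card_le_card fun b hb => ?_
    rw [Finset.mem_filter] at hb ⊢
    exact ⟨hb.1, (P.mem_Nset s b a₀ R L A B h M ζ).2 ⟨hb.2, hZ ζ hζ⟩⟩
  calc Z.card * s ^ t = ∑ _ζ ∈ Z, s ^ t := by rw [Finset.sum_const, smul_eq_mul]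
    _ ≤ ∑ ζ ∈ Z, ∑ b : Fin t → Fin S, (if ζ ∈ P.Nset s b a₀ R L A B h M then 1 else 0) :=
        Finset.sum_le_sum h2
    _ ≤ ∑ ζ : Fin L, ∑ b : Fin t → Fin S,
        (if ζ ∈ P.Nset s b a₀ R L A B h M then 1 else 0) :=
        Finset.sum_le_sum_of_subset (Finset.subset_univ Z)
    _ = ∑ b : Fin t → Fin S, ∑ ζ : Fin L,
        (if ζ ∈ P.Nset s b a₀ R L A B h M then 1 else 0) := Finset.sum_comm
    _ = ∑ b : Fin t → Fin S, (P.Nset s b a₀ R L A B h M).card :=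
        Finset.sum_congr rfl fun b _ => (h1 b).symm

end Pool.Agent.JQ
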