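import Mathlib
import Pool.Agent.JQ.RDefs

namespace Pool.Agent.JQ

open Finset

variable {n S H V : ℕ}

/-- the words of the second table read along a list, by number -/
def Guess_sw (P : Scheme n S H V) (h : Fin H) (z : ℕ) (v₀ : Fin V) : List (Fin V) → ℕ → Fin V
  | [] => fun _ => v₀
  | x :: l => match P.next h z l with
      | .joint _ => Guess_sw P h z v₀ l
      | .first => Guess_sw P h z v₀ l
      | .second => Function.update (Guess_sw P h z v₀ l) (P.seconds h z l) x

theorem Guess_step (P : Scheme n S H V) (h : Fin H) (z : ℕ) (v₀ : Fin V) (x : Fin V)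
    (l : List (Fin V)) (i : ℕ) (hi : i < P.seconds h z l) :
    i < P.seconds h z (x :: l) ∧ Guess_sw P h z v₀ (x :: l) i = Guess_sw P h z v₀ l i := by
  simp only [Scheme.seconds, Guess_sw]
  cases hn : P.next h z l with
  | joint a => exact ⟨by simpa using hi, rfl⟩
  | first => exact ⟨by simpa using hi, rfl⟩
  | second =>
    refine ⟨by simp only []; omega, ?_⟩
    exact Function.update_of_ne (by omega) _ _

theorem Guess_len (P : Scheme n S H V) (h : Fin H) (z : ℕ)
    (c : List (Fin V) → Fin S → Fin V) (w₁ w₂ : List (Fin V) → Fin V) (k : ℕ) :
    (P.run h z c w₁ w₂ k).length = k := by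
  induction k with
  | zero => rfl
  | succ k ih =>
    simp only [Scheme.run, List.length_cons, ih]

theorem Guess_mono (P : Scheme n S H V) (h : Fin H) (z : ℕ) (v₀ : Fin V)
    (c : List (Fin V) → Fin S → Fin V) (w₁ w₂ : List (Fin V) → Fin V) (i j k : ℕ) (hjk : j ≤ k)
    (hi : i < P.seconds h z (P.run h z c w₁ w₂ j)) :
    i < P.seconds h z (P.run h z c w₁ w₂ k) ∧
      Guess_sw P h z v₀ (P.run h z c w₁ w₂ k) i = Guess_sw P h z v₀ (P.run h z c w₁ w₂ j) i := by
  induction k, hjk using Nat.le_induction with
  | base => exact ⟨hi, rfl⟩
  | succ k _ ih =>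
    obtain ⟨h1, h2⟩ := Guess_step P h z v₀
      (match P.next h z (P.run h z c w₁ w₂ k) with
        | .joint a => c (P.run h z c w₁ w₂ k) a
        | .first => w₁ (P.run h z c w₁ w₂ k)
        | .second => w₂ (P.run h z c w₁ w₂ k)) (P.run h z c w₁ w₂ k) i ih.1
    exact ⟨h1, h2.trans ih.2⟩

theorem Guess_nj {t : ℕ} (P : Scheme n S H V) (h : Fin H) (z : ℕ) (s : ℕ) (b : Fin t → Fin S)
    (x : Fin V) (l : List (Fin V)) (hn : ∀ a, P.next h z l ≠ .joint a) :
    P.joints h z (x :: l) = P.joints h z l ∧ (P.inS s b h z (x :: l) ↔ P.inS s b h z l) ∧
      P.seconds h z l ≤ P.seconds h z (x :: l) := by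
  simp only [Scheme.joints, Scheme.inS, Scheme.seconds]
  cases hc : P.next h z l with
  | joint a => exact absurd hc (hn a)
  | first => simp
  | second => simp

/-- If all joint cells of the true run are in the sample, the same holds for the run in which the
words of the second table are replaced by a suitable guess of the first `r` of them.
PROOF. Let `l_k` be the true list after `k` steps. Let `g i` be the word of number `i` of the second
table which is read on the true run, if there are more than `i` of them, otherwise `v₀`. (E.g. define
`sw : List (Fin V) → ℕ → Fin V` by `sw [] = fun _ => v₀`,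
`sw (x :: l) = Function.update (sw l) (seconds l) x` if the read after `l` is of the second table and
`sw l` otherwise; `sw l i` does not change any more once `i < seconds l`; `g i = sw l_R i`.) Let `l'_k` be the list of
the guessed run. By induction on `k ≤ R` one of the following holds.
(A) `seconds l_k ≤ r` and `l'_k = l_k`.
(B) `seconds l_k > r`, `seconds l'_k > r`, `joints l'_k = joints l_k` and
`inS b l'_k ↔ inS b l_k`.
Step from (A): the next reads are the same. If it is not a read of the second table, or
`seconds l_k < r`, the words are the same and (A) holds again. If it is a read of the second table and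
`seconds l_k = r`, then (B) holds. Step from (B): `k < R`, so by `Bounded` the next read is not a
joint one in either run, so `joints` and `inS` do not change and `seconds` does not decrease.
In both cases `full` for `l_R` gives `full` for `l'_R`. -/
theorem guess_full {t r R : ℕ} (P : Scheme n S H V) (hB : P.Bounded t r R) (s : ℕ)
    (b : Fin t → Fin S) (a₀ : Fin S) (v₀ : Fin V) (A B : Fin n → ℕ) (h : Fin H)
    (M : Fin S → Fin V) (z : ℕ) (hf : P.full s b a₀ h z (P.real A B h M z R)) :
    ∃ g : Fin r → Fin V, P.full s b a₀ h z (P.greal v₀ M A g h z R) := by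
  set L : ℕ → List (Fin V) := fun k => P.real A B h M z k with hL
  set g : Fin r → Fin V := fun i => Guess_sw P h z v₀ (L R) i with hg
  set L' : ℕ → List (Fin V) := fun k => P.greal v₀ M A g h z k with hL'
  have hLs : ∀ k, L (k + 1) = (match P.next h z (L k) with
      | .joint a => M a
      | .first => P.word₁ A h z (L k)
      | .second => P.word₂ B h z (L k)) :: L k := fun k => rfl
  have hLs' : ∀ k, L' (k + 1) = (match P.next h z (L' k) with
      | .joint a => M a
      | .first => P.word₁ A h z (L' k)
      | .second => P.guess v₀ h z g (L' k)) :: L' k := fun k => rfl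
  have hlen : ∀ k, (L k).length = k := fun k => Guess_len _ _ _ _ _ _ _
  have hlen' : ∀ k, (L' k).length = k := fun k => Guess_len _ _ _ _ _ _ _
  have hmono : ∀ i j k, j ≤ k → i < P.seconds h z (L j) →
      Guess_sw P h z v₀ (L k) i = Guess_sw P h z v₀ (L j) i := fun i j k hjk hi =>
    (Guess_mono P h z v₀ _ _ _ i j k hjk hi).2
  have key : ∀ k, k ≤ R → (P.seconds h z (L k) ≤ r ∧ L' k = L k) ∨
      (r < P.seconds h z (L k) ∧ r < P.seconds h z (L' k) ∧
        P.joints h z (L' k) = P.joints h z (L k) ∧
        (P.inS s b h z (L' k) ↔ P.inS s b h z (L k))) := by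
    intro k
    induction k with
    | zero =>
      intro _
      left
      exact ⟨Nat.zero_le _, rfl⟩
    | succ k ih =>
      intro hk
      rcases ih (by omega) with ⟨h1, h2⟩ | ⟨h1, h2, h3, h4⟩
      · cases hn : P.next h z (L k) with
        | joint a =>
          left
          have e1 : L (k + 1) = M a :: L k := by rw [hLs, hn]
          have e2 : L' (k + 1) = M a :: L k := by rw [hLs', h2, hn]
          refine ⟨?_, by rw [e1, e2]⟩
          rw [e1]
          simp only [Scheme.seconds, hn]
          omega
        | first =>
          left
          have e1 : L (k + 1) = P.word₁ A h z (L k) :: L k := by rw [hLs, hn]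
          have e2 : L' (k + 1) = P.word₁ A h z (L k) :: L k := by rw [hLs', h2, hn]
          refine ⟨?_, by rw [e1, e2]⟩
          rw [e1]
          simp only [Scheme.seconds, hn]
          omega
        | second =>
          have e1 : L (k + 1) = P.word₂ B h z (L k) :: L k := by rw [hLs, hn]
          have e2 : L' (k + 1) = P.guess v₀ h z g (L k) :: L k := by rw [hLs', h2, hn]
          have e3 : P.seconds h z (L (k + 1)) = P.seconds h z (L k) + 1 := by
            rw [e1]
            simp only [Scheme.seconds, hn]
          rcases Nat.lt_or_ge (P.seconds h z (L k)) r with hr | hr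
          · left
            refine ⟨by omega, ?_⟩
            have e4 : P.guess v₀ h z g (L k) = P.word₂ B h z (L k) := by
              unfold Scheme.guess
              rw [dif_pos hr]
              show Guess_sw P h z v₀ (L R) (P.seconds h z (L k)) = _
              rw [hmono (P.seconds h z (L k)) (k + 1) R hk (by omega), e1]
              simp only [Guess_sw, hn, Function.update_self]
            rw [e1, e2, e4]
          · right
            refine ⟨by omega, ?_, ?_, ?_⟩
            · rw [e2]
              simp only [Scheme.seconds, hn]
              omega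
            · rw [e1, e2]
              simp only [Scheme.joints, hn]
            · rw [e1, e2]
              simp only [Scheme.inS, hn]
      · right
        have n1 : ∀ a, P.next h z (L k) ≠ .joint a := by
          intro a ha
          have := (hB h z (L k) a (by rw [hlen]; omega) ha).2
          omega
        have n2 : ∀ a, P.next h z (L' k) ≠ .joint a := by
          intro a ha
          have := (hB h z (L' k) a (by rw [hlen']; omega) ha).2
          omega
        rw [hLs, hLs']
        obtain ⟨a1, a2, a3⟩ := Guess_nj P h z s b (match P.next h z (L k) with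
          | .joint a => M a
          | .first => P.word₁ A h z (L k)
          | .second => P.word₂ B h z (L k)) (L k) n1
        obtain ⟨b1, b2, b3⟩ := Guess_nj P h z s b (match P.next h z (L' k) with
          | .joint a => M a
          | .first => P.word₁ A h z (L' k)
          | .second => P.guess v₀ h z g (L' k)) (L' k) n2
        refine ⟨by omega, by omega, ?_, ?_⟩
        · rw [a1, b1, h3]
        · rw [a2, b2, h4]
  refine ⟨g, ?_⟩
  have hfR : P.full s b a₀ h z (L R) := hf
  show P.full s b a₀ h z (L' R)
  rcases key R le_rfl with ⟨_, h2⟩ | ⟨_, _, h3, h4⟩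
  · rw [h2]
    exact hfR
  · refine ⟨h4.2 hfR.1, fun τ hτ => hfR.2 τ ?_⟩
    rw [← h3]
    exact hτ

end Pool.Agent.JQ
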