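import Mathlib
import Pool.Agent.JQ.SDefs
import Pool.Agent.JQ.Path
import Pool.Agent.JQ.RunR
import Pool.Agent.JQ.Agree
import Pool.Agent.JQ.Guess

namespace Pool.Agent.JQ

open Finset

variable {n S H V : ℕ}

/-- PROOF. If `ζ` is in the set for `b`, there is `g` with `full b (gsim b (res M b) A g)`; by
`agree₂` `gsim = greal`, so `full b (greal v₀ M A g ...)`, where the list does not depend on
`b`. So for each `ζ` the number of the `b` is at most `∑ g, #{b | full b (greal ... g ...)} = V^r s^t`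
by `full_count` and `length_run`. Sum over `ζ`. -/
theorem cntP {t r R s : ℕ} (P : Scheme n S H V) (hB : P.Bounded t r R) (hs : s ≤ S)
    (v₀ : Fin V) (a₀ : Fin S) (A : Fin n → ℕ) (h : Fin H) (M : Fin S → Fin V) (L : ℕ) :
    ∑ b : Fin t → Fin S,
      (P.Pset v₀ b a₀ r R L (res M b : Fin t → Fin s → Fin V) A h).card ≤
        V ^ r * (L * s ^ t) := by
  classical
  have h1 : ∀ b : Fin t → Fin S,
      (P.Pset v₀ b a₀ r R L (res M b : Fin t → Fin s → Fin V) A h).card ≤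
        ∑ ζ : Fin L, ∑ g : Fin r → Fin V,
          if P.full s b a₀ h (L + (ζ : ℕ)) (P.greal v₀ M A g h (L + (ζ : ℕ)) R) then 1 else 0 := by
    intro b
    rw [card_eq_sum_ones]
    have h2 : P.Pset v₀ b a₀ r R L (res M b : Fin t → Fin s → Fin V) A h ⊆
        univ.filter fun ζ : Fin L => ∃ g : Fin r → Fin V,
          P.full s b a₀ h (L + (ζ : ℕ)) (P.greal v₀ M A g h (L + (ζ : ℕ)) R) := by
      intro ζ hζ
      rw [P.mem_Pset] at hζ
      obtain ⟨g, hg⟩ := hζ
      rw [mem_filter]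
      refine ⟨mem_univ _, g, ?_⟩
      have h3 : P.gsim v₀ b (res M b : Fin t → Fin s → Fin V) A g h (L + (ζ : ℕ)) R =
          P.greal v₀ M A g h (L + (ζ : ℕ)) R :=
        agree₂ (s := s) P v₀ b M h (L + (ζ : ℕ)) (P.word₁ A h (L + (ζ : ℕ)))
          (P.guess v₀ h (L + (ζ : ℕ)) g) R hg.1
      rw [← h3]
      exact hg
    refine (sum_le_sum_of_subset h2).trans ?_
    rw [sum_filter]
    refine sum_le_sum fun ζ _ => ?_
    split_ifs with h4
    · obtain ⟨g, hg⟩ := h4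
      refine le_trans ?_ (single_le_sum (fun _ _ => Nat.zero_le _) (mem_univ g))
      rw [if_pos hg]
    · exact Nat.zero_le _
  calc ∑ b : Fin t → Fin S,
        (P.Pset v₀ b a₀ r R L (res M b : Fin t → Fin s → Fin V) A h).card
      ≤ ∑ b : Fin t → Fin S, ∑ ζ : Fin L, ∑ g : Fin r → Fin V,
          (if P.full s b a₀ h (L + (ζ : ℕ)) (P.greal v₀ M A g h (L + (ζ : ℕ)) R) then 1 else 0) :=
        sum_le_sum fun b _ => h1 b
    _ = ∑ ζ : Fin L, ∑ g : Fin r → Fin V, ∑ b : Fin t → Fin S,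
          (if P.full s b a₀ h (L + (ζ : ℕ)) (P.greal v₀ M A g h (L + (ζ : ℕ)) R) then 1 else 0) := by
        rw [sum_comm]
        refine sum_congr rfl fun ζ _ => ?_
        rw [sum_comm]
    _ = ∑ ζ : Fin L, ∑ g : Fin r → Fin V, s ^ t := by
        refine sum_congr rfl fun ζ _ => sum_congr rfl fun g _ => ?_
        have hl : (P.greal v₀ M A g h (L + (ζ : ℕ)) R).length ≤ R :=
          (length_run P h (L + (ζ : ℕ)) _ _ _ R).le
        rw [← full_count P hB hs a₀ h (L + (ζ : ℕ)) _ hl, card_filter]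
    _ = V ^ r * (L * s ^ t) := by
        simp only [sum_const, card_univ, Fintype.card_fin, smul_eq_mul, Fintype.card_fun]
        ring

/-- PROOF. `guess_full` gives `g` with `full b (greal v₀ M A g ...)`; by `agree₁`
`gsim = greal`. -/
theorem nset_sub {t r R s : ℕ} (P : Scheme n S H V) (hB : P.Bounded t r R)
    (v₀ : Fin V) (a₀ : Fin S) (b : Fin t → Fin S) (A B : Fin n → ℕ) (h : Fin H)
    (M : Fin S → Fin V) (L : ℕ) :
    P.Nset s b a₀ R L A B h M ⊆
      P.Pset v₀ b a₀ r R L (res M b : Fin t → Fin s → Fin V) A h := by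
  intro ζ hζ
  rw [P.mem_Nset] at hζ
  rw [P.mem_Pset]
  obtain ⟨g, hg⟩ := guess_full P hB s b a₀ v₀ A B h M (L + (ζ : ℕ)) hζ.1
  refine ⟨g, ?_⟩
  have h3 : P.gsim v₀ b (res M b : Fin t → Fin s → Fin V) A g h (L + (ζ : ℕ)) R =
      P.greal v₀ M A g h (L + (ζ : ℕ)) R :=
    agree₁ (s := s) P v₀ b M h (L + (ζ : ℕ)) (P.word₁ A h (L + (ζ : ℕ)))
      (P.guess v₀ h (L + (ζ : ℕ)) g) R hg.1
  rw [h3]
  exact hg

end Pool.Agent.JQ
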