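import Mathlib
import Pool.Agent.JP.LDefs

namespace Pool.Agent.JQ

open Finset Pool.Agent.JP

/-- PROOF. `Tset N Y ⊆ Tset (N \ M) Y ∪ Tset M Y`, and `|Tset M Y| ≤ n |M|`, because a member `v`
is determined by `j` and `ζ` in `M`; so `∑ v ∈ Tset M Y, h v ≤ n |M| B`. -/
theorem fMono {n L : ℕ} (N M : Finset (Fin L)) (h : Fin L → ℝ) (B : ℝ)
    (h0 : ∀ v, 0 ≤ h v) (hB : ∀ v, h v ≤ B) (Y : Fin n → Fin (2 * L)) :
    ∑ v ∈ Tset N Y, h v ≤ ∑ v ∈ Tset (N \ M) Y, h v + n * M.card * B := by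
  classical
  have hsub : Tset N Y ⊆ Tset (N \ M) Y ∪ Tset M Y := by
    intro v hv
    simp only [Tset, Finset.mem_filter, Finset.mem_univ, true_and, Finset.mem_union,
      Finset.mem_sdiff] at hv ⊢
    obtain ⟨j, ζ, hζ, e⟩ := hv
    by_cases hM : ζ ∈ M
    · exact Or.inr ⟨j, ζ, hM, e⟩
    · exact Or.inl ⟨j, ζ, ⟨hζ, hM⟩, e⟩
  have hcard : (Tset M Y).card ≤ n * M.card := by
    have h1 : Tset M Y ⊆ ((Finset.univ : Finset (Fin n)) ×ˢ M).biUnion
        fun p => Finset.univ.filter fun v : Fin L => (v : ℕ) + (Y p.1 : ℕ) = L + (p.2 : ℕ) := by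
      intro v hv
      simp only [Tset, Finset.mem_filter, Finset.mem_univ, true_and] at hv
      obtain ⟨j, ζ, hζ, e⟩ := hv
      rw [Finset.mem_biUnion]
      exact ⟨(j, ζ), Finset.mem_product.2 ⟨Finset.mem_univ _, hζ⟩,
        Finset.mem_filter.2 ⟨Finset.mem_univ _, e⟩⟩
    refine (Finset.card_le_card h1).trans (Finset.card_biUnion_le.trans ?_)
    calc ∑ p ∈ (Finset.univ : Finset (Fin n)) ×ˢ M,
          (Finset.univ.filter fun v : Fin L => (v : ℕ) + (Y p.1 : ℕ) = L + (p.2 : ℕ)).card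
        ≤ ∑ _p ∈ (Finset.univ : Finset (Fin n)) ×ˢ M, 1 := by
          refine Finset.sum_le_sum fun p _ => Finset.card_le_one.2 ?_
          intro a ha b hb
          rw [Finset.mem_filter] at ha hb
          exact Fin.ext (by omega)
      _ = n * M.card := by
          rw [Finset.sum_const, Finset.card_product, Finset.card_univ, Fintype.card_fin]
          simp
  have h2 : ∑ v ∈ Tset M Y, h v ≤ n * M.card * B := by
    rcases (Tset M Y).eq_empty_or_nonempty with he | ⟨v0, hv0⟩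
    · rw [he, Finset.sum_empty]
      rcases Nat.eq_zero_or_pos L with hL | hL
      · subst hL
        have : M = ∅ := Finset.eq_empty_of_isEmpty M
        simp [this]
      · have hB0 : 0 ≤ B := (h0 ⟨0, hL⟩).trans (hB ⟨0, hL⟩)
        positivity
    · have hB0 : 0 ≤ B := (h0 v0).trans (hB v0)
      calc ∑ v ∈ Tset M Y, h v ≤ ∑ _v ∈ Tset M Y, B := Finset.sum_le_sum fun v _ => hB v
        _ = (Tset M Y).card * B := by rw [Finset.sum_const, nsmul_eq_mul]
        _ ≤ (n * M.card : ℕ) * B := by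
            refine mul_le_mul_of_nonneg_right ?_ hB0
            exact_mod_cast hcard
        _ = n * M.card * B := by push_cast; ring
  calc ∑ v ∈ Tset N Y, h v ≤ ∑ v ∈ Tset (N \ M) Y ∪ Tset M Y, h v :=
        Finset.sum_le_sum_of_subset_of_nonneg hsub fun v _ _ => h0 v
    _ ≤ ∑ v ∈ Tset (N \ M) Y, h v + ∑ v ∈ Tset M Y, h v := by
        rw [← Finset.sum_union_inter]
        have : 0 ≤ ∑ v ∈ Tset (N \ M) Y ∩ Tset M Y, h v := Finset.sum_nonneg fun v _ => h0 v
        linarith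
    _ ≤ ∑ v ∈ Tset (N \ M) Y, h v + n * M.card * B := by linarith

end Pool.Agent.JQ
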