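import Mathlib
import Pool.Agent.JP.LDefs

namespace Pool.Agent.JQ

open Finset Pool.Agent.JP

/-- The numbers `ζ` in `N` for which `L + ζ` is a sum `X i + Y j`. -/
def Hit {n L : ℕ} (N : Finset (Fin L)) (X : Fin n → Fin L) (Y : Fin n → Fin (2 * L)) :
    Finset (Fin L) :=
  N.filter fun ζ => ∃ i j, (X i : ℕ) + (Y j : ℕ) = L + (ζ : ℕ)

/-- The error term of the counting inequality for schemes with errors. -/
noncomputable def err2 (n L K K' T : ℕ) : ℝ :=
  Real.exp (-((K : ℝ) / 256)) + 2 * Real.exp (-((n : ℝ) / 2 ^ 25)) +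
    (L : ℝ) ^ K' * (T : ℝ) ^ K' * Real.exp (-((n : ℝ) / 2 ^ 25))

end Pool.Agent.JQ
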