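import Mathlib

namespace Pool.Agent.JQ

open Finset

/-- Few subsets are small.
PROOF. Let `k = |N|`, `x = 1 / 1024`. Every `M` in the set has `x^|M| ≥ x^(k / 2^13)` (real powers, or
compare `(x^|M|)^(2^13) ≥ x^k`), so with `Finset.sum_pow_mul_eq_add_pow`
`#sets * exp (-(k / 2^13) * log 1024) ≤ ∑ M ∈ N.powerset, x^|M| = (1 + x)^k ≤ exp (k / 1024)`. And
`1/1024 + log 1024 / 8192 ≤ 1/512`, since `log 1024 = 10 log 2 ≤ 7 ≤ 8` (`Real.log_two_lt_d9`). -/
theorem subset_count {ι : Type*} [DecidableEq ι] (N : Finset ι) :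
    ((N.powerset.filter fun M => 2 ^ 13 * M.card ≤ N.card).card : ℝ) ≤
      Real.exp ((N.card : ℝ) / 512) := by
  set k : ℝ := (N.card : ℝ) with hk
  have hk0 : 0 ≤ k := by positivity
  set S := N.powerset.filter fun M => 2 ^ 13 * M.card ≤ N.card with hS
  have hlog : Real.log 1024 ≤ 8 := by
    have h1 : (1024 : ℝ) = 2 ^ 10 := by norm_num
    rw [h1, Real.log_pow]
    have := Real.log_two_lt_d9
    push_cast
    linarith
  have h1 : (S.card : ℝ) * Real.exp (-(k / 2 ^ 13 * Real.log 1024)) ≤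
      ∑ M ∈ N.powerset, ((1 : ℝ) / 1024) ^ M.card * 1 ^ (N.card - M.card) := by
    calc (S.card : ℝ) * Real.exp (-(k / 2 ^ 13 * Real.log 1024))
        = ∑ _M ∈ S, Real.exp (-(k / 2 ^ 13 * Real.log 1024)) := by
          rw [Finset.sum_const, nsmul_eq_mul]
      _ ≤ ∑ M ∈ S, ((1 : ℝ) / 1024) ^ M.card * 1 ^ (N.card - M.card) := by
          refine Finset.sum_le_sum fun M hM => ?_
          rw [hS, Finset.mem_filter] at hM
          have hM2 : ((2 : ℝ) ^ 13 * (M.card : ℝ)) ≤ k := by
            rw [hk]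
            exact_mod_cast hM.2
          have e1 : ((1 : ℝ) / 1024) ^ M.card * 1 ^ (N.card - M.card) =
              Real.exp (-((M.card : ℝ) * Real.log 1024)) := by
            rw [one_pow, mul_one, Real.exp_neg, Real.exp_nat_mul, Real.exp_log (by norm_num),
              one_div, inv_pow]
          rw [e1, Real.exp_le_exp, neg_le_neg_iff]
          refine mul_le_mul_of_nonneg_right ?_ (Real.log_nonneg (by norm_num))
          rw [le_div_iff₀ (by positivity)]
          linarith
      _ ≤ ∑ M ∈ N.powerset, ((1 : ℝ) / 1024) ^ M.card * 1 ^ (N.card - M.card) := by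
          refine Finset.sum_le_sum_of_subset_of_nonneg (Finset.filter_subset _ _) ?_
          intro M _ _
          positivity
  rw [Finset.sum_pow_mul_eq_add_pow] at h1
  have h2 : ((1 : ℝ) / 1024 + 1) ^ N.card ≤ Real.exp (k / 1024) := by
    have h3 : ((1 : ℝ) / 1024 + 1) ≤ Real.exp (1 / 1024) := Real.add_one_le_exp _
    calc ((1 : ℝ) / 1024 + 1) ^ N.card ≤ (Real.exp (1 / 1024)) ^ N.card :=
          pow_le_pow_left₀ (by norm_num) h3 _
      _ = Real.exp (k / 1024) := by
          rw [← Real.exp_nat_mul, hk]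
          congr 1
          ring
  have h3 : (S.card : ℝ) ≤ Real.exp (k / 1024) * Real.exp (k / 2 ^ 13 * Real.log 1024) := by
    have h4 := h1.trans h2
    rw [Real.exp_neg] at h4
    rwa [← div_eq_mul_inv, div_le_iff₀ (Real.exp_pos _)] at h4
  refine h3.trans ?_
  rw [← Real.exp_add, Real.exp_le_exp]
  have h5 : k / 2 ^ 13 * Real.log 1024 ≤ k / 2 ^ 13 * 8 :=
    mul_le_mul_of_nonneg_left hlog (by positivity)
  have h6 : k / 1024 + k / 2 ^ 13 * 8 = k / 512 := by ring
  linarith

end Pool.Agent.JQ
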