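import Mathlib
import Pool.Agent.JQ.HDefs
import Pool.Agent.JQ.SubCnt
import Pool.Agent.JQ.FMono
import Pool.Agent.JP.BadX
import Pool.Agent.JP.HitX
import Pool.Agent.JP.Mass
import Pool.Agent.JP.YBad

namespace Pool.Agent.JQ

open Finset Pool.Agent.JP

private theorem FewHit_fst {α β : Type*} [DecidableEq α] [DecidableEq β] (P : Finset α)
    (E : Finset (α × β)) (hE : ∀ p ∈ E, p.1 ∈ P) {c : ℝ}
    (h : ∀ x ∈ P, (((E.filter (fun p => p.1 = x)).image Prod.snd).card : ℝ) ≤ c) :
    (E.card : ℝ) ≤ P.card * c := by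
  have h1 := Finset.card_eq_sum_card_fiberwise (f := Prod.fst) (s := E) (t := P) hE
  rw [h1]
  push_cast
  calc ∑ x ∈ P, ((E.filter (fun p => p.1 = x)).card : ℝ) ≤ ∑ x ∈ P, c := by
        refine Finset.sum_le_sum fun x hx => ?_
        have h2 : ((E.filter (fun p => p.1 = x)).image Prod.snd).card =
            (E.filter (fun p => p.1 = x)).card := by
          apply Finset.card_image_of_injOn
          intro a ha b hb hab
          have ha' := (mem_filter.1 ha).2
          have hb' := (mem_filter.1 hb).2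
          exact Prod.ext (ha'.trans hb'.symm) hab
        rw [← h2]
        exact h x hx
    _ = P.card * c := by rw [Finset.sum_const, nsmul_eq_mul]

private theorem FewHit_snd {α β : Type*} [DecidableEq α] [DecidableEq β] (Q : Finset β)
    (E : Finset (α × β)) (hE : ∀ p ∈ E, p.2 ∈ Q) {c : ℝ}
    (h : ∀ y ∈ Q, (((E.filter (fun p => p.2 = y)).image Prod.fst).card : ℝ) ≤ c) :
    (E.card : ℝ) ≤ Q.card * c := by
  have h1 := Finset.card_eq_sum_card_fiberwise (f := Prod.snd) (s := E) (t := Q) hE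
  rw [h1]
  push_cast
  calc ∑ y ∈ Q, ((E.filter (fun p => p.2 = y)).card : ℝ) ≤ ∑ y ∈ Q, c := by
        refine Finset.sum_le_sum fun y hy => ?_
        have h2 : ((E.filter (fun p => p.2 = y)).image Prod.fst).card =
            (E.filter (fun p => p.2 = y)).card := by
          apply Finset.card_image_of_injOn
          intro a ha b hb hab
          have ha' := (mem_filter.1 ha).2
          have hb' := (mem_filter.1 hb).2
          exact Prod.ext hab (ha'.trans hb'.symm)
        rw [← h2]
        exact h y hy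
    _ = Q.card * c := by rw [Finset.sum_const, nsmul_eq_mul]

/-- For almost all pairs in a large rectangle more than `|N| / 2^13` of the `ζ ∈ N` are hit.
PROOF. Let `k = |N|`, `δ = 2^(-25)`, `c = 64 / L` (so `n * c = 16 / n`). If `k = 0` the right
side is at least `|P| |Q| ≥ |E|`. Let `k > 0`. Split `E` into three parts.
(1) The pairs `(x, Y)` with `n / 2 < tot (badI c) n P x`: by `badX` with
`L^n / |P| ≤ exp (δ n)` at most `|P| exp (-n/10 + δ n / 2) |Q| ≤ |P| |Q| exp (-δ n)` pairs.
(2) The pairs with `x` not as in (1) and `∑ v ∈ Tset N Y, hx c n P x v ≤ k / 128`: for every such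
`x` by `yBad` with `h v = hx c n P x v` (`hx_nonneg`, `hx_le`; `sum_hx` gives
`∑ h ≥ (n - n/2)/2 = n/4`) at most `(2L)^n exp (-2 δ n) ≤ |Q| exp (-δ n)` different `Y`. So at most
`|P| |Q| exp (-δ n)` pairs.
(3) The other pairs. Fix `Y ∈ Q` and a subset `M` of `N` with `2^13 |M| ≤ k`, and let `G` be the set
of the `x ∈ P` with `(x, Y)` of type (3) and `Hit N x Y = M`. For `x ∈ G` no `x i` is in
`T = Tset (N \ M) Y`, and by `fMono` with `B = 16 / n`
`∑ v ∈ T, hx c n P x v ≥ k / 128 - 16 |M| ≥ k / 128 - k / 512 = 3 k / 512`. So by `hitX`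
`|G| exp (3 k / 512) ≤ |P|`. By `subset_count` there are at most `exp (k / 512)` sets `M`. Sum over
`M` and `Y`: at most `exp (k/512 - 3k/512) |P| |Q| = exp (-k/256) |P| |Q|` pairs. -/
theorem fewHit {n L : ℕ} (hL : L = 4 * n ^ 2) (hn : 0 < n) (N : Finset (Fin L))
    (hN : N.card ≤ n) (P : Finset (Fin n → Fin L)) (Q : Finset (Fin n → Fin (2 * L)))
    (hP : Real.exp (-((n : ℝ) / 2 ^ 25)) * (L : ℝ) ^ n ≤ P.card)
    (hQ : Real.exp (-((n : ℝ) / 2 ^ 25)) * (2 * (L : ℝ)) ^ n ≤ Q.card)
    (E : Finset ((Fin n → Fin L) × (Fin n → Fin (2 * L)))) (hE : E ⊆ P ×ˢ Q)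
    (hF : ∀ p ∈ E, 2 ^ 13 * (Hit N p.1 p.2).card ≤ N.card) :
    (E.card : ℝ) ≤ (Real.exp (-((N.card : ℝ) / 256)) + 2 * Real.exp (-((n : ℝ) / 2 ^ 25))) *
      (P.card * Q.card) := by
  classical
  have hnr : (0 : ℝ) < n := by exact_mod_cast hn
  have hL0 : 0 < L := by rw [hL]; positivity
  have hLr : (0 : ℝ) < L := by exact_mod_cast hL0
  have hLe : (L : ℝ) = 4 * (n : ℝ) ^ 2 := by rw [hL]; push_cast; ring
  have hPpos : (0 : ℝ) < P.card := lt_of_lt_of_le (by positivity) hP
  have hQpos : (0 : ℝ) < Q.card := lt_of_lt_of_le (by positivity) hQ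
  rcases Nat.eq_zero_or_pos N.card with hk | hk
  · -- `k = 0`
    have h1 : (E.card : ℝ) ≤ P.card * Q.card := by
      have := Finset.card_le_card hE
      rw [Finset.card_product] at this
      exact_mod_cast this
    rw [hk]
    simp only [Nat.cast_zero, zero_div, neg_zero, Real.exp_zero]
    have h2 : (0 : ℝ) ≤ 2 * Real.exp (-((n : ℝ) / 2 ^ 25)) * (P.card * Q.card) := by positivity
    nlinarith
  obtain ⟨c, hc⟩ : ∃ c : ℝ, c = 64 / (L : ℝ) := ⟨_, rfl⟩
  have hc0 : 0 ≤ c := by rw [hc]; positivity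
  have hnc : (n : ℝ) * c = 16 / n := by
    rw [hc, hLe]
    field_simp
    ring
  obtain ⟨E1, hE1⟩ : ∃ E1, E1 = E.filter (fun p => (n : ℝ) / 2 < tot (badI c) n P p.1) := ⟨_, rfl⟩
  obtain ⟨E2, hE2⟩ : ∃ E2, E2 = E.filter (fun p => ¬ ((n : ℝ) / 2 < tot (badI c) n P p.1) ∧
      ∑ v ∈ Tset N p.2, hx c n P p.1 v ≤ (N.card : ℝ) / 128) := ⟨_, rfl⟩
  obtain ⟨E3, hE3⟩ : ∃ E3, E3 = E.filter (fun p =>
      (N.card : ℝ) / 128 < ∑ v ∈ Tset N p.2, hx c n P p.1 v) := ⟨_, rfl⟩
  have hcov : E ⊆ E1 ∪ E2 ∪ E3 := by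
    intro p hp
    rw [mem_union, mem_union, hE1, hE2, hE3, mem_filter, mem_filter, mem_filter]
    by_cases h1 : (n : ℝ) / 2 < tot (badI c) n P p.1
    · exact Or.inl (Or.inl ⟨hp, h1⟩)
    · rcases le_or_gt (∑ v ∈ Tset N p.2, hx c n P p.1 v) ((N.card : ℝ) / 128) with h2 | h2
      · exact Or.inl (Or.inr ⟨hp, h1, h2⟩)
      · exact Or.inr ⟨hp, h2⟩
  have hfst : ∀ p ∈ E, p.1 ∈ P := fun p hp => (mem_product.1 (hE hp)).1
  have hsnd : ∀ p ∈ E, p.2 ∈ Q := fun p hp => (mem_product.1 (hE hp)).2
  have hlogn : Real.exp (-((n : ℝ) / 2 ^ 25)) * Real.exp ((n : ℝ) / 2 ^ 25) = 1 := by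
    rw [← Real.exp_add, neg_add_cancel, Real.exp_zero]
  -- part 1
  have b1 : (E1.card : ℝ) ≤ Real.exp (-((n : ℝ) / 2 ^ 25)) * (P.card * Q.card) := by
    obtain ⟨G, hG⟩ : ∃ G, G = P.filter (fun x => (n : ℝ) / 2 < tot (badI c) n P x) := ⟨_, rfl⟩
    have hG1 := badX hL0 n P G (by rw [hG]; exact filter_subset _ _) (fun x hx => by
      rw [hG, mem_filter] at hx
      rw [← hc]
      exact hx.2)
    have hs : √((L : ℝ) ^ n / P.card) ≤ Real.exp ((n : ℝ) / 2 ^ 25) := by
      rw [Real.sqrt_le_left (Real.exp_nonneg _)]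
      have h1 : (L : ℝ) ^ n / P.card ≤ Real.exp ((n : ℝ) / 2 ^ 25) := by
        rw [div_le_iff₀ hPpos]
        have h2 := mul_le_mul_of_nonneg_left hP (Real.exp_nonneg ((n : ℝ) / 2 ^ 25))
        rw [← mul_assoc, mul_comm (Real.exp ((n : ℝ) / 2 ^ 25)) (Real.exp (-((n : ℝ) / 2 ^ 25))),
          hlogn, one_mul] at h2
        exact h2
      refine h1.trans ?_
      have h3 : 1 ≤ Real.exp ((n : ℝ) / 2 ^ 25) := Real.one_le_exp (by positivity)
      nlinarith
    have hG2 : (G.card : ℝ) ≤ P.card * Real.exp (-((n : ℝ) / 2 ^ 25)) := by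
      have h1 : (G.card : ℝ) * Real.exp ((n : ℝ) / 10) ≤ P.card * Real.exp ((n : ℝ) / 2 ^ 25) :=
        hG1.trans (mul_le_mul_of_nonneg_left hs hPpos.le)
      have h2 : (G.card : ℝ) ≤ P.card * Real.exp ((n : ℝ) / 2 ^ 25) * Real.exp (-((n : ℝ) / 10)) := by
        have h3 := mul_le_mul_of_nonneg_right h1 (Real.exp_nonneg (-((n : ℝ) / 10)))
        rw [mul_assoc, ← Real.exp_add, add_neg_cancel, Real.exp_zero, mul_one] at h3
        exact h3
      refine h2.trans ?_
      rw [mul_assoc, ← Real.exp_add]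
      refine mul_le_mul_of_nonneg_left (Real.exp_le_exp.2 ?_) hPpos.le
      have : (n : ℝ) / 2 ^ 25 ≤ (n : ℝ) / 20 := by
        apply div_le_div_of_nonneg_left hnr.le (by norm_num) (by norm_num)
      linarith
    have h3 : (E1.card : ℝ) ≤ (G.card : ℝ) * Q.card := by
      have h4 : E1 ⊆ G ×ˢ Q := by
        intro p hp
        rw [hE1, mem_filter] at hp
        rw [mem_product, hG, mem_filter]
        exact ⟨⟨hfst p hp.1, hp.2⟩, hsnd p hp.1⟩
      have h5 := Finset.card_le_card h4
      rw [Finset.card_product] at h5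
      exact_mod_cast h5
    calc (E1.card : ℝ) ≤ (G.card : ℝ) * Q.card := h3
      _ ≤ (P.card * Real.exp (-((n : ℝ) / 2 ^ 25))) * Q.card :=
        mul_le_mul_of_nonneg_right hG2 hQpos.le
      _ = _ := by ring
  -- part 2
  have b2 : (E2.card : ℝ) ≤ Real.exp (-((n : ℝ) / 2 ^ 25)) * (P.card * Q.card) := by
    have h1 : (E2.card : ℝ) ≤ P.card * ((2 * (L : ℝ)) ^ n * Real.exp (-((n : ℝ) / 2 ^ 24))) := by
      refine FewHit_fst P E2 (fun p hp => ?_) fun x hxP => ?_
      · rw [hE2, mem_filter] at hp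
        exact hfst p hp.1
      · by_cases hxb : (n : ℝ) / 2 < tot (badI c) n P x
        · have h0 : (E2.filter (fun p => p.1 = x)).image Prod.snd = ∅ := by
            rw [Finset.image_eq_empty, Finset.filter_eq_empty_iff]
            intro p hp hpx
            rw [hE2, mem_filter] at hp
            rw [hpx] at hp
            exact hp.2.1 hxb
          rw [h0]
          simp only [card_empty, Nat.cast_zero]
          positivity
        · refine yBad hL hn N hk hN (fun v => hx c n P x v) (fun v => hx_nonneg c hc0 n P x v)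
            (fun v => ?_) ?_ _ (fun Y hY => ?_)
          · have := hx_le c n P x v
            rw [hnc] at this
            exact this
          · have := sum_hx c hc0 n P x
            refine le_trans ?_ this
            rw [not_lt] at hxb
            linarith
          · rw [mem_image] at hY
            obtain ⟨p, hp, hpY⟩ := hY
            rw [mem_filter, hE2, mem_filter] at hp
            obtain ⟨⟨_, _, h3⟩, h4⟩ := hp
            rw [← hpY, ← h4]
            exact h3
    have h2 : (2 * (L : ℝ)) ^ n ≤ Real.exp ((n : ℝ) / 2 ^ 25) * Q.card := by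
      have h3 := mul_le_mul_of_nonneg_left hQ (Real.exp_nonneg ((n : ℝ) / 2 ^ 25))
      rw [← mul_assoc, mul_comm (Real.exp ((n : ℝ) / 2 ^ 25)) (Real.exp (-((n : ℝ) / 2 ^ 25))),
        hlogn, one_mul] at h3
      exact h3
    have e1 : Real.exp ((n : ℝ) / 2 ^ 25) * Real.exp (-((n : ℝ) / 2 ^ 24)) =
        Real.exp (-((n : ℝ) / 2 ^ 25)) := by
      rw [← Real.exp_add]
      congr 1
      ring
    calc (E2.card : ℝ) ≤ P.card * ((2 * (L : ℝ)) ^ n * Real.exp (-((n : ℝ) / 2 ^ 24))) := h1
      _ ≤ P.card * ((Real.exp ((n : ℝ) / 2 ^ 25) * Q.card) * Real.exp (-((n : ℝ) / 2 ^ 24))) :=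
        mul_le_mul_of_nonneg_left (mul_le_mul_of_nonneg_right h2 (Real.exp_nonneg _)) hPpos.le
      _ = (Real.exp ((n : ℝ) / 2 ^ 25) * Real.exp (-((n : ℝ) / 2 ^ 24))) * (P.card * Q.card) := by
        ring
      _ = _ := by rw [e1]
  -- part 3
  have b3 : (E3.card : ℝ) ≤ Real.exp (-((N.card : ℝ) / 256)) * (P.card * Q.card) := by
    have h1 : (E3.card : ℝ) ≤ Q.card * (P.card * Real.exp (-((N.card : ℝ) / 256))) := by
      refine FewHit_snd Q E3 (fun p hp => ?_) fun Y hYQ => ?_
      · rw [hE3, mem_filter] at hp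
        exact hsnd p hp.1
      · obtain ⟨F, hFdef⟩ : ∃ F, F = (E3.filter (fun p => p.2 = Y)).image Prod.fst := ⟨_, rfl⟩
        rw [← hFdef]
        have hFm : ∀ x ∈ F, x ∈ P ∧ 2 ^ 13 * (Hit N x Y).card ≤ N.card ∧
            (N.card : ℝ) / 128 < ∑ v ∈ Tset N Y, hx c n P x v := by
          intro x hx
          rw [hFdef, mem_image] at hx
          obtain ⟨p, hp, hpx⟩ := hx
          rw [mem_filter, hE3, mem_filter] at hp
          obtain ⟨⟨h2, h3⟩, h4⟩ := hp
          rw [← hpx, ← h4]
          exact ⟨hfst p h2, hF p h2, h3⟩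
        obtain ⟨S, hS⟩ : ∃ S, S = N.powerset.filter (fun M => 2 ^ 13 * M.card ≤ N.card) :=
          ⟨_, rfl⟩
        have hScard : (S.card : ℝ) ≤ Real.exp ((N.card : ℝ) / 512) := by
          rw [hS]
          exact subset_count N
        have hmaps : ∀ x ∈ F, Hit N x Y ∈ S := by
          intro x hx
          rw [hS, mem_filter, mem_powerset]
          exact ⟨filter_subset _ _, (hFm x hx).2.1⟩
        have hfib : ∀ M ∈ S, ((F.filter (fun x => Hit N x Y = M)).card : ℝ) ≤
            P.card * Real.exp (-(3 * (N.card : ℝ) / 512)) := by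
          intro M hM
          obtain ⟨G, hG⟩ : ∃ G, G = F.filter (fun x => Hit N x Y = M) := ⟨_, rfl⟩
          rw [← hG]
          have hMc : (2 : ℝ) ^ 13 * M.card ≤ N.card := by
            rw [hS, mem_filter] at hM
            exact_mod_cast hM.2
          have hGm : ∀ x ∈ G, x ∈ P ∧ (∀ i, x i ∉ Tset (N \ M) Y) ∧
              3 * (N.card : ℝ) / 512 ≤ ∑ v ∈ Tset (N \ M) Y, hx c n P x v := by
            intro x hx
            rw [hG, mem_filter] at hx
            obtain ⟨hxF, hxM⟩ := hx
            obtain ⟨hxP, -, hx3⟩ := hFm x hxF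
            refine ⟨hxP, fun i hi => ?_, ?_⟩
            · rw [Tset, mem_filter] at hi
              obtain ⟨_, j, ζ, hζ, h5⟩ := hi
              rw [mem_sdiff] at hζ
              apply hζ.2
              rw [← hxM, Hit, mem_filter]
              exact ⟨hζ.1, i, j, h5⟩
            · have h6 := fMono N M (fun v => hx c n P x v) (16 / (n : ℝ))
                (fun v => hx_nonneg c hc0 n P x v) (fun v => by
                  have := hx_le c n P x v
                  rw [hnc] at this
                  exact this) Y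
              have h7 : (n : ℝ) * M.card * (16 / n) = 16 * M.card := by
                field_simp
              rw [h7] at h6
              linarith
          have h2 := hitX c (Tset (N \ M) Y) n P G (fun x hx => (hGm x hx).1)
            (fun x hx => (hGm x hx).2.1)
          have h3 : (G.card : ℝ) * Real.exp (3 * (N.card : ℝ) / 512) ≤ P.card := by
            refine le_trans ?_ h2
            rw [← nsmul_eq_mul, ← Finset.sum_const]
            exact Finset.sum_le_sum fun x hx => Real.exp_le_exp.2 (hGm x hx).2.2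
          have h4 := mul_le_mul_of_nonneg_right h3 (Real.exp_nonneg (-(3 * (N.card : ℝ) / 512)))
          rw [mul_assoc, ← Real.exp_add, add_neg_cancel, Real.exp_zero, mul_one] at h4
          exact h4
        have hcardF := Finset.card_eq_sum_card_fiberwise (f := fun x => Hit N x Y) (s := F)
          (t := S) hmaps
        have e2 : Real.exp ((N.card : ℝ) / 512) * Real.exp (-(3 * (N.card : ℝ) / 512)) =
            Real.exp (-((N.card : ℝ) / 256)) := by
          rw [← Real.exp_add]
          congr 1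
          ring
        rw [hcardF]
        push_cast
        calc ∑ M ∈ S, ((F.filter (fun x => Hit N x Y = M)).card : ℝ)
            ≤ ∑ M ∈ S, (P.card : ℝ) * Real.exp (-(3 * (N.card : ℝ) / 512)) :=
              Finset.sum_le_sum hfib
          _ = (S.card : ℝ) * (P.card * Real.exp (-(3 * (N.card : ℝ) / 512))) := by
              rw [Finset.sum_const, nsmul_eq_mul]
          _ ≤ Real.exp ((N.card : ℝ) / 512) * (P.card * Real.exp (-(3 * (N.card : ℝ) / 512))) :=
              mul_le_mul_of_nonneg_right hScard (by positivity)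
          _ = P.card * (Real.exp ((N.card : ℝ) / 512) * Real.exp (-(3 * (N.card : ℝ) / 512))) := by
              ring
          _ = _ := by rw [e2]
    refine h1.trans (le_of_eq ?_)
    ring
  have hcard : (E.card : ℝ) ≤ E1.card + E2.card + E3.card := by
    have h1 := Finset.card_le_card hcov
    have h2 := Finset.card_union_le (E1 ∪ E2) E3
    have h3 := Finset.card_union_le E1 E2
    exact_mod_cast h1.trans (h2.trans (by omega))
  calc (E.card : ℝ) ≤ E1.card + E2.card + E3.card := hcard
    _ ≤ Real.exp (-((n : ℝ) / 2 ^ 25)) * (P.card * Q.card) +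
        Real.exp (-((n : ℝ) / 2 ^ 25)) * (P.card * Q.card) +
        Real.exp (-((N.card : ℝ) / 256)) * (P.card * Q.card) := by linarith
    _ = _ := by ring

end Pool.Agent.JQ
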