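import Mathlib
import Pool.Agent.JQ.HDefs
import Pool.Agent.JP.Rect
import Pool.Agent.JQ.FewHit

namespace Pool.Agent.JQ

open Finset Pool.Agent.JP

/-- PROOF. Apply `rect` with `Φ X Y = (e X, fun k => sim X Y (e X k))`, a map into
`(Fin K' → Fin L) × (Fin K' → τ)`, which has `L^K' * |τ|^K'` elements, `θ = exp (-n/2^25)`,
`ε = exp (-K/256) + 2 exp (-n/2^25)`. `Φ` is rectangular by `hsim`. Let `P`, `Q`, `E'` be as in the
hypothesis of `rect`. If `E'` is empty there is nothing to show. Otherwise let `p₀ ∈ E'`,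
`(e₀, l₀) = Φ p₀.1 p₀.2`, the common value of `Φ` on `P × Q`, and let `N` be the set of `hE` for
`p₀`; since `ζ ∈ N ↔ ∃ k, e₀ k = ζ ∧ D ζ (l₀ k)` it is the same set for all `p ∈ E'`. It has at most
`K' ≤ n` members (image of `e₀`) and at least `K`. So `fewHit` with this `N` gives the bound
(`exp (-|N|/256) ≤ exp (-K/256)`). -/
theorem fibE {n L K K' : ℕ} {τ : Type} [Fintype τ] (hL : L = 4 * n ^ 2) (hn : 0 < n)
    (hK : K' ≤ n)
    (sim : (Fin n → Fin L) → (Fin n → Fin (2 * L)) → Fin L → τ)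
    (hsim : ∀ X Y X' Y' ζ, sim X Y ζ = sim X' Y' ζ → sim X Y' ζ = sim X Y ζ)
    (D : Fin L → τ → Prop) (e : (Fin n → Fin L) → Fin K' → Fin L)
    (E : Finset ((Fin n → Fin L) × (Fin n → Fin (2 * L))))
    (hE : ∀ p ∈ E, ∃ N : Finset (Fin L),
      (∀ ζ, ζ ∈ N ↔ (∃ k, e p.1 k = ζ) ∧ D ζ (sim p.1 p.2 ζ)) ∧ K ≤ N.card ∧
        2 ^ 13 * (Hit N p.1 p.2).card ≤ N.card) :
    (E.card : ℝ) ≤ err2 n L K K' (Fintype.card τ) * ((L : ℝ) ^ n * (2 * (L : ℝ)) ^ n) := by
  classical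
  have hΦ : ∀ (x : Fin n → Fin L) (y : Fin n → Fin (2 * L)) (x' : Fin n → Fin L)
      (y' : Fin n → Fin (2 * L)),
      (fun (X : Fin n → Fin L) (Y : Fin n → Fin (2 * L)) =>
        ((e X, fun k => sim X Y (e X k)) : (Fin K' → Fin L) × (Fin K' → τ))) x y =
      (fun (X : Fin n → Fin L) (Y : Fin n → Fin (2 * L)) =>
        ((e X, fun k => sim X Y (e X k)) : (Fin K' → Fin L) × (Fin K' → τ))) x' y' →
      (fun (X : Fin n → Fin L) (Y : Fin n → Fin (2 * L)) =>
        ((e X, fun k => sim X Y (e X k)) : (Fin K' → Fin L) × (Fin K' → τ))) x y' =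
      (fun (X : Fin n → Fin L) (Y : Fin n → Fin (2 * L)) =>
        ((e X, fun k => sim X Y (e X k)) : (Fin K' → Fin L) × (Fin K' → τ))) x y := by
    intro x y x' y' h
    have h1 : e x = e x' := congrArg Prod.fst h
    have h2 : (fun k => sim x y (e x k)) = (fun k => sim x' y' (e x' k)) := congrArg Prod.snd h
    refine Prod.ext rfl ?_
    funext k
    have h3 : sim x y (e x k) = sim x' y' (e x' k) := congrFun h2 k
    rw [← h1] at h3
    exact hsim x y x' y' (e x k) h3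
  have hcα : ((Fintype.card (Fin n → Fin L) : ℕ) : ℝ) = (L : ℝ) ^ n := by
    simp
  have hcβ : ((Fintype.card (Fin n → Fin (2 * L)) : ℕ) : ℝ) = (2 * (L : ℝ)) ^ n := by
    simp
  have hcτ : ((Fintype.card ((Fin K' → Fin L) × (Fin K' → τ)) : ℕ) : ℝ) =
      (L : ℝ) ^ K' * (Fintype.card τ : ℝ) ^ K' := by
    simp
  have key := rect _ hΦ E
    (Real.exp (-((K : ℝ) / 256)) + 2 * Real.exp (-((n : ℝ) / 2 ^ 25)))
    (Real.exp (-((n : ℝ) / 2 ^ 25))) (by positivity) (by positivity) ?_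
  · rw [hcα, hcβ, hcτ] at key
    unfold err2
    exact key
  · intro P Q E' hP hQ hsub hsub' hconst
    rw [hcα] at hP
    rw [hcβ] at hQ
    rcases E'.eq_empty_or_nonempty with rfl | ⟨p₀, hp₀⟩
    · simp only [card_empty, Nat.cast_zero]
      positivity
    · obtain ⟨N, hN, hNK, hNH⟩ := hE p₀ (hsub hp₀)
      have hNp : ∀ p ∈ E', ∀ ζ, ζ ∈ N ↔ (∃ k, e p.1 k = ζ) ∧ D ζ (sim p.1 p.2 ζ) := by
        intro p hp ζ
        have hpm := mem_product.1 (hsub' hp)
        have hpm0 := mem_product.1 (hsub' hp₀)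
        have hc := hconst p.1 hpm.1 p.2 hpm.2 p₀.1 hpm0.1 p₀.2 hpm0.2
        have h1 : e p.1 = e p₀.1 := congrArg Prod.fst hc
        have h2 : (fun k => sim p.1 p.2 (e p.1 k)) = (fun k => sim p₀.1 p₀.2 (e p₀.1 k)) :=
          congrArg Prod.snd hc
        rw [hN ζ]
        constructor
        · rintro ⟨⟨k, hk⟩, hD⟩
          have h3 : sim p.1 p.2 (e p.1 k) = sim p₀.1 p₀.2 (e p₀.1 k) := congrFun h2 k
          rw [h1, hk] at h3
          rw [h1, h3]
          exact ⟨⟨k, hk⟩, hD⟩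
        · rintro ⟨⟨k, hk⟩, hD⟩
          have h3 : sim p.1 p.2 (e p.1 k) = sim p₀.1 p₀.2 (e p₀.1 k) := congrFun h2 k
          rw [h1] at hk
          rw [h1, hk] at h3
          rw [h3] at hD
          exact ⟨⟨k, hk⟩, hD⟩
      have hNn : N.card ≤ n := by
        have h4 : N ⊆ univ.image (e p₀.1) := by
          intro ζ hζ
          obtain ⟨⟨k, hk⟩, -⟩ := (hN ζ).1 hζ
          exact mem_image.2 ⟨k, mem_univ k, hk⟩
        calc N.card ≤ (univ.image (e p₀.1)).card := card_le_card h4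
          _ ≤ (univ : Finset (Fin K')).card := card_image_le
          _ = K' := by rw [card_univ, Fintype.card_fin]
          _ ≤ n := hK
      have hF : ∀ p ∈ E', 2 ^ 13 * (Hit N p.1 p.2).card ≤ N.card := by
        intro p hp
        obtain ⟨N', hN', -, hNH'⟩ := hE p (hsub hp)
        have h5 : N' = N := by
          ext ζ
          rw [hN' ζ, hNp p hp ζ]
        rw [h5] at hNH'
        exact hNH'
      have h6 := fewHit hL hn N hNn P Q hP hQ E' hsub' hF
      refine h6.trans (mul_le_mul_of_nonneg_right ?_ (by positivity))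
      have h7 : Real.exp (-((N.card : ℝ) / 256)) ≤ Real.exp (-((K : ℝ) / 256)) := by
        refine Real.exp_le_exp.2 ?_
        have : (K : ℝ) ≤ N.card := by exact_mod_cast hNK
        linarith
      linarith

end Pool.Agent.JQ
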