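import Mathlib

namespace Pool.Agent.JQ

open Finset

/-- PROOF. (Similar to `Pool/Agent/JP/Sub.lean`.) If `G` is empty take any `e`. Otherwise let
`m = |Z| ≥ K > 0`, `w = 32 c K`. If `m ≤ w` let `e` be a map onto `Z` (`w > 0`), `G' = G`,
`N = A y`. Let `m > w`. Enumerate `Z = {z_0, ..., z_(m-1)}` (`Z.equivFin`), and for `i < m` let
`e_i k = z_((i + k) mod m)`, `k < w`; `W_i` its image. Every `z ∈ Z` is in exactly `w` of the
`W_i`. Let `f i = |A y ∩ W_i| - d |B y ∩ W_i|` (an integer). For `y ∈ G`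
`∑ i, f i = w (|A y| - d |B y|) ≥ w |A y| / 2 ≥ w m / (16 c)`. Call `i` good for `y` if
`|A y ∩ W_i| ≥ K` and `d |B y ∩ W_i| ≤ |A y ∩ W_i|`. If `i` is not good, `f i ≤ K`; always `f i ≤ w`. So
the number `p` of the good `i` satisfies `w m / (16 c) ≤ K m + p w`, that is
`2 K m ≤ K m + 32 c K p`, so `m ≤ 32 c p`. Sum over `y ∈ G` and exchange: some `i` satisfies
`|G| ≤ 32 c * #{y ∈ G | i good for y}`. Take `e = e_i`, this set as `G'` and `N = A y ∩ W_i`; for
`M ⊆ N`, `M ⊆ B y` we have `M ⊆ B y ∩ W_i`. -/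
theorem subE {ι κ : Type*} [Nonempty ι] (Z : Finset ι) (G : Finset κ) (A B : κ → Finset ι)
    (c K d : ℕ) (hc : 0 < c) (hK : 0 < K)
    (hA : ∀ y ∈ G, A y ⊆ Z ∧ B y ⊆ A y ∧ K ≤ (A y).card ∧ Z.card ≤ 8 * c * (A y).card ∧
      2 * d * (B y).card ≤ (A y).card) :
    ∃ e : Fin (32 * c * K) → ι, ∃ G' : Finset κ, G' ⊆ G ∧ G.card ≤ 32 * c * G'.card ∧
      ∀ y ∈ G', ∃ N : Finset ι, (∀ z, z ∈ N ↔ z ∈ A y ∧ ∃ k, e k = z) ∧ K ≤ N.card ∧
        ∀ M : Finset ι, M ⊆ N → M ⊆ B y → d * M.card ≤ N.card := by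
  classical
  rcases G.eq_empty_or_nonempty with hG | ⟨y₀, hy₀⟩
  · exact ⟨fun _ => Classical.arbitrary ι, ∅, by simp, by simp [hG], by simp⟩
  have hm : 0 < Z.card := by
    obtain ⟨h1, _, h2, _⟩ := hA y₀ hy₀
    exact lt_of_lt_of_le hK (h2.trans (card_le_card h1))
  obtain ⟨f, hfinj, hfsurj⟩ : ∃ f : ℕ → ι, (∀ a b, f a = f b → a % Z.card = b % Z.card) ∧
      ∀ z ∈ Z, ∃ j < Z.card, ∀ j', j' % Z.card = j → f j' = z := by
    refine ⟨fun j => (Z.equivFin.symm ⟨j % Z.card, Nat.mod_lt _ hm⟩ : ι), ?_, ?_⟩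
    · intro a b h
      have h1 := Subtype.ext h
      have h2 := Z.equivFin.symm.injective h1
      exact congrArg Fin.val h2
    · intro z hz
      refine ⟨(Z.equivFin ⟨z, hz⟩ : ℕ), Fin.is_lt _, ?_⟩
      intro j' hj'
      simp [hj']
  obtain ⟨m, hmdef⟩ : ∃ m, m = Z.card := ⟨_, rfl⟩
  have hm' : 0 < m := hmdef ▸ hm
  rw [← hmdef] at hfinj hfsurj
  obtain ⟨w, hwd⟩ : ∃ w, w = 32 * c * K := ⟨_, rfl⟩
  rw [← hwd]
  have hw : 0 < w := by rw [hwd]; positivity
  by_cases hmw : m ≤ w
  · refine ⟨fun k => f k, G, Subset.refl _, Nat.le_mul_of_pos_left _ (by positivity), ?_⟩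
    intro y hy
    obtain ⟨h1, h2, h3, h4, h5⟩ := hA y hy
    refine ⟨A y, fun z => ⟨fun hz => ⟨hz, ?_⟩, fun hz => hz.1⟩, h3, ?_⟩
    · obtain ⟨j, hj, hj'⟩ := hfsurj z (h1 hz)
      exact ⟨⟨j, hj.trans_le hmw⟩, hj' j (Nat.mod_eq_of_lt hj)⟩
    · intro M _ hMB
      have h6 : M.card ≤ (B y).card := card_le_card hMB
      have h7 : d * M.card ≤ d * (B y).card := Nat.mul_le_mul_left _ h6
      nlinarith
  push Not at hmw
  -- the two counts
  obtain ⟨a, ha⟩ : ∃ a : κ → ℕ → ℕ, ∀ y i, a y i =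
      ((range w).filter fun k => f (i + k) ∈ A y).card := ⟨_, fun _ _ => rfl⟩
  obtain ⟨b, hb⟩ : ∃ b : κ → ℕ → ℕ, ∀ y i, b y i =
      ((range w).filter fun k => f (i + k) ∈ B y).card := ⟨_, fun _ _ => rfl⟩
  have haw : ∀ y i, a y i ≤ w := by
    intro y i
    rw [ha]
    refine (card_filter_le _ _).trans ?_
    rw [card_range]
  have hy : ∀ y ∈ G, m ≤ 32 * c * ((range m).filter fun i =>
      K ≤ a y i ∧ d * b y i ≤ a y i).card := by
    intro y hy
    obtain ⟨h1, h1', _, h3, h4⟩ := hA y hy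
    rw [← hmdef] at h3
    have e1 : ∀ k, (A y).card ≤ ((range m).filter fun i => f (i + k) ∈ A y).card := by
      intro k
      refine card_le_card_of_surjOn (fun i => f (i + k)) ?_
      intro z hz
      obtain ⟨j, hj, hj'⟩ := hfsurj z (h1 hz)
      have h5 : f ((j + (m - k % m)) % m + k) = z := by
        apply hj'
        have hk : k % m < m := Nat.mod_lt _ hm'
        rw [Nat.mod_add_mod]
        have h6 : j + (m - k % m) + k = j + m * (k / m + 1) := by
          have := Nat.div_add_mod k m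
          rw [mul_add, mul_one]
          omega
        rw [h6, Nat.add_mul_mod_self_left, Nat.mod_eq_of_lt hj]
      refine ⟨(j + (m - k % m)) % m, ?_, h5⟩
      rw [mem_coe, mem_filter, mem_range]
      exact ⟨Nat.mod_lt _ hm', by rw [h5]; exact hz⟩
    have e1' : ∀ k, ((range m).filter fun i => f (i + k) ∈ B y).card ≤ (B y).card := by
      intro k
      refine card_le_card_of_injOn (fun i => f (i + k)) ?_ ?_
      · intro i hi
        rw [mem_coe, mem_filter] at hi
        exact hi.2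
      · intro i hi j hj hij
        rw [mem_coe, mem_filter, mem_range] at hi hj
        have h7 := hfinj _ _ hij
        have h8 : i ≡ j [MOD m] := Nat.ModEq.add_right_cancel' k h7
        exact Nat.ModEq.eq_of_lt_of_lt h8 hi.1 hj.1
    have e2 : w * (A y).card ≤ ∑ i ∈ range m, a y i := by
      have h4 : ∑ i ∈ range m, a y i
          = ∑ k ∈ range w, ((range m).filter fun i => f (i + k) ∈ A y).card := by
        simp only [ha, card_filter]
        exact sum_comm
      rw [h4]
      calc w * (A y).card = ∑ k ∈ range w, (A y).card := by simp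
        _ ≤ _ := sum_le_sum fun k _ => e1 k
    have e2' : ∑ i ∈ range m, b y i ≤ w * (B y).card := by
      have h4 : ∑ i ∈ range m, b y i
          = ∑ k ∈ range w, ((range m).filter fun i => f (i + k) ∈ B y).card := by
        simp only [hb, card_filter]
        exact sum_comm
      rw [h4]
      calc _ ≤ ∑ k ∈ range w, (B y).card := sum_le_sum fun k _ => e1' k
        _ = _ := by simp
    have e3 : ∑ i ∈ range m, a y i ≤ K * m + d * ∑ i ∈ range m, b y i +
        w * ((range m).filter fun i => K ≤ a y i ∧ d * b y i ≤ a y i).card := by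
      calc _ ≤ ∑ i ∈ range m, (K + d * b y i +
            w * (if K ≤ a y i ∧ d * b y i ≤ a y i then 1 else 0)) := by
            refine sum_le_sum fun i _ => ?_
            split_ifs with h
            · have := haw y i
              omega
            · rw [not_and_or] at h
              omega
        _ = _ := by
            rw [sum_add_distrib, sum_add_distrib, ← mul_sum, ← mul_sum, card_filter]
            simp [mul_comm]
    generalize ((range m).filter fun i => K ≤ a y i ∧ d * b y i ≤ a y i).card = p at e3 ⊢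
    have e4 : w * (A y).card ≤ K * m + d * (w * (B y).card) + w * p :=
      (e2.trans e3).trans (by
        have := Nat.mul_le_mul_left d e2'
        omega)
    have e5 : w * (A y).card ≤ 2 * (K * m) + 2 * (w * p) := by
      have h6 : w * (2 * d * (B y).card) ≤ w * (A y).card := Nat.mul_le_mul_left _ h4
      nlinarith
    have e6 : w * m ≤ 8 * c * (2 * (K * m) + 2 * (w * p)) := by
      calc w * m ≤ w * (8 * c * (A y).card) := Nat.mul_le_mul_left _ h3
        _ = 8 * c * (w * (A y).card) := by ring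
        _ ≤ _ := Nat.mul_le_mul_left _ e5
    have e7 : 16 * c * K * m ≤ 16 * c * K * (32 * c * p) := by
      rw [hwd] at e6
      nlinarith
    exact Nat.le_of_mul_le_mul_left e7 (by positivity)
  have hex : ∃ i ∈ range m, G.card ≤ 32 * c * (G.filter fun y =>
      K ≤ a y i ∧ d * b y i ≤ a y i).card := by
    by_contra hcon
    push Not at hcon
    have h1 : ∑ i ∈ range m, 32 * c * (G.filter fun y =>
      K ≤ a y i ∧ d * b y i ≤ a y i).card
        < ∑ i ∈ range m, G.card :=
      sum_lt_sum_of_nonempty (nonempty_range_iff.2 hm'.ne') hcon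
    have h2 : ∑ y ∈ G, m ≤ ∑ y ∈ G, 32 * c * ((range m).filter fun i =>
      K ≤ a y i ∧ d * b y i ≤ a y i).card :=
      sum_le_sum hy
    rw [← mul_sum] at h1 h2
    simp only [card_filter] at h1 h2
    rw [sum_comm] at h1
    simp only [sum_const, card_range, smul_eq_mul] at h1 h2
    have h3 : m * G.card = G.card * m := mul_comm _ _
    omega
  obtain ⟨i, hi, hcard⟩ := hex
  refine ⟨fun k => f (i + k), G.filter fun y => K ≤ a y i ∧ d * b y i ≤ a y i,
    filter_subset _ _, hcard, ?_⟩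
  intro y hy'
  obtain ⟨hyG, hyK, hyd⟩ := mem_filter.1 hy'
  have hinj : ∀ k < w, ∀ l < w, f (i + k) = f (i + l) → k = l := by
    intro k hk l hl hkl
    have h1 := hfinj _ _ hkl
    have h2 : k ≡ l [MOD m] := Nat.ModEq.add_left_cancel' i h1
    exact Nat.ModEq.eq_of_lt_of_lt h2 (hk.trans hmw) (hl.trans hmw)
  have hNc : (((range w).filter fun k => f (i + k) ∈ A y).image fun k => f (i + k)).card =
      a y i := by
    rw [card_image_of_injOn, ha]
    intro k hk l hl hkl
    rw [mem_coe, mem_filter, mem_range] at hk hl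
    exact hinj k hk.1 l hl.1 hkl
  refine ⟨((range w).filter fun k => f (i + k) ∈ A y).image fun k => f (i + k), ?_, ?_, ?_⟩
  · intro z
    constructor
    · intro hz
      obtain ⟨k, hk, rfl⟩ := mem_image.1 hz
      rw [mem_filter, mem_range] at hk
      exact ⟨hk.2, ⟨k, hk.1⟩, rfl⟩
    · rintro ⟨hz, k, rfl⟩
      exact mem_image.2 ⟨k, mem_filter.2 ⟨mem_range.2 k.2, hz⟩, rfl⟩
  · rw [hNc]; exact hyK
  · intro M hMN hMB
    rw [hNc]
    have h5 : M.card ≤ b y i := by
      rw [hb]
      have h6 : M ⊆ ((range w).filter fun k => f (i + k) ∈ B y).image fun k => f (i + k) := by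
        intro z hz
        obtain ⟨k, hk, rfl⟩ := mem_image.1 (hMN hz)
        rw [mem_filter] at hk
        exact mem_image.2 ⟨k, mem_filter.2 ⟨hk.1, hMB hz⟩, rfl⟩
      exact (card_le_card h6).trans card_image_le
    exact (Nat.mul_le_mul_left d h5).trans hyd

end Pool.Agent.JQ
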