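import Mathlib
import Pool.Agent.JQ.CntN
import Pool.Agent.JQ.CntP
import Pool.Agent.JQ.CntE
import Pool.Agent.JQ.ChE
import Pool.Agent.JQ.SubE
import Pool.Agent.JQ.FibE
import Pool.Agent.JP.NoCnt

namespace Pool.Agent.JQ

open Finset Pool.Agent.JP

variable {n S H V : ℕ}

/-- A run which is in the sample is the same for the true cells and for the sample. -/
theorem sim_eq_real {t s : ℕ} (P : Scheme n S H V) (v₀ : Fin V) (b : Fin t → Fin S)
    (a₀ : Fin S) (A B : Fin n → ℕ) (h : Fin H) (M : Fin S → Fin V) (z R : ℕ)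
    (hf : P.full s b a₀ h z (P.real A B h M z R) ∨
      P.full s b a₀ h z (P.sim v₀ b (res M b : Fin t → Fin s → Fin V) A B h z R)) :
    P.sim v₀ b (res M b : Fin t → Fin s → Fin V) A B h z R = P.real A B h M z R := by
  rcases hf with hf | hf
  · exact agree₁ P v₀ b M h z _ _ R hf.1
  · exact agree₂ P v₀ b M h z _ _ R hf.1

/-- The bound for one value of the header and one sample. -/
theorem one_sigma {n L t R s K K' : ℕ} (hL : L = 4 * n ^ 2) (hn : 0 < n)
    (P : Scheme n S H V) (hK : K' ≤ n)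
    (v₀ : Fin V) (a₀ : Fin S) (b : Fin t → Fin S)
    (hh : (Fin n → Fin L) → (Fin n → Fin (2 * L)) → Fin H)
    (MM : (Fin n → Fin L) → (Fin n → Fin (2 * L)) → Fin S → Fin V)
    (h : Fin H) (μ : Fin t → Fin s → Fin V) (e : (Fin n → Fin L) → Fin K' → Fin L)
    (E : Finset ((Fin n → Fin L) × (Fin n → Fin (2 * L))))
    (hE : ∀ p ∈ E, hh p.1 p.2 = h ∧
      (res (MM p.1 p.2) b : Fin t → Fin s → Fin V) = μ ∧
      ∃ N : Finset (Fin L), (∀ ζ, ζ ∈ N ↔ ζ ∈ P.Nset s b a₀ R L (fun i => p.1 i)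
        (fun j => p.2 j) h (MM p.1 p.2) ∧ ∃ k, e p.1 k = ζ) ∧ K ≤ N.card ∧
        2 ^ 13 * (Hit N p.1 p.2).card ≤ N.card) :
    (E.card : ℝ) ≤ err2 n L K K' (V ^ R) * ((L : ℝ) ^ n * (2 * (L : ℝ)) ^ n) := by
  have key := fibE (τ := List.Vector (Fin V) R) (K := K) hL hn hK
    (fun X Y ζ => ⟨P.sim v₀ b μ (fun i => X i) (fun j => Y j) h (L + (ζ : ℕ)) R, length_run ..⟩)
    (fun X Y X' Y' ζ he => Subtype.ext
      (run_rect P h (L + (ζ : ℕ)) _ _ _ _ _ R (congrArg Subtype.val he)))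
    (fun ζ l => P.full s b a₀ h (L + (ζ : ℕ)) l.1 ∧ P.ans h (L + (ζ : ℕ)) l.1 = false) e E
    (by
      intro p hp
      obtain ⟨h1, h2, N, hN1, hN2, hN3⟩ := hE p hp
      refine ⟨N, fun ζ => ?_, hN2, hN3⟩
      rw [hN1, Scheme.mem_Nset, and_comm]
      refine and_congr_right fun _ => ?_
      subst h1 h2
      show _ ↔ P.full _ _ _ _ _ (P.sim v₀ b _ (fun i => p.1 i) (fun j => p.2 j) _ _ R) ∧
          P.ans _ _ (P.sim v₀ b _ (fun i => p.1 i) (fun j => p.2 j) _ _ R) = false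
      constructor
      · rintro ⟨hf, ha⟩
        rw [sim_eq_real P v₀ b a₀ _ _ _ _ _ R (Or.inl hf)]
        exact ⟨hf, ha⟩
      · rintro ⟨hf, ha⟩
        have hs := sim_eq_real P v₀ b a₀ _ _ _ _ _ R (Or.inr hf)
        rw [hs] at hf ha
        exact ⟨hf, ha⟩)
  have hcard : Fintype.card (List.Vector (Fin V) R) = V ^ R := by
    rw [card_vector, Fintype.card_fin]
  rw [hcard] at key
  exact key

/-- The main counting inequality. -/
theorem countE {n L S H V t r R s K : ℕ} (hn : 0 < n) (hL : L = 4 * n ^ 2) (hS : 0 < S)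
    (hsS : s ≤ S) (P : Scheme n S H V) (hB : P.Bounded t r R)
    (hh : (Fin n → Fin L) → (Fin n → Fin (2 * L)) → Fin H)
    (MM : (Fin n → Fin L) → (Fin n → Fin (2 * L)) → Fin S → Fin V)
    (hW : 2 ^ 17 * Nat.card {p : ((Fin n → Fin L) × (Fin n → Fin (2 * L))) × Fin L //
      P.Wrong R (fun i => p.1.1 i) (fun j => p.1.2 j) (hh p.1.1 p.1.2) (MM p.1.1 p.1.2)
        (L + p.2)} ≤ L * Fintype.card ((Fin n → Fin L) × (Fin n → Fin (2 * L))))
    (hK : 0 < K) (hKn : 32 * V ^ r * K ≤ n)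
    (hKρ : 2 * K * S ^ t ≤ n ^ 2 * s ^ t) :
    (s : ℝ) ^ t ≤ 128 * (V : ℝ) ^ r * (H * ((V : ℝ) ^ s) ^ t) * (S : ℝ) ^ t *
      err2 n (4 * n ^ 2) K (32 * V ^ r * K) (V ^ R) := by
  classical
  rw [← hL]
  have hL0 : 0 < L := by rw [hL]; positivity
  let a₀ : Fin S := ⟨0, hS⟩
  let v₀ : Fin V := MM (fun _ => ⟨0, hL0⟩) (fun _ => ⟨0, by omega⟩) a₀
  have hV : 0 < V := v₀.pos
  have : Nonempty (Fin S) := ⟨a₀⟩
  have : Nonempty (Fin L) := ⟨⟨0, hL0⟩⟩
  have hVr : 0 < V ^ r := by positivity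
  -- the sets of sums, of queries answered `false`, and of wrong queries
  let Sm : (Fin n → Fin L) × (Fin n → Fin (2 * L)) → Finset (Fin L) := fun p =>
    univ.filter fun ζ : Fin L => ∃ i j, (p.1 i : ℕ) + (p.2 j : ℕ) = L + (ζ : ℕ)
  let Fa : (Fin n → Fin L) × (Fin n → Fin (2 * L)) → Finset (Fin L) := fun p =>
    univ.filter fun ζ : Fin L => P.ans (hh p.1 p.2) (L + (ζ : ℕ))
      (P.real (fun i => p.1 i) (fun j => p.2 j) (hh p.1 p.2) (MM p.1 p.2) (L + (ζ : ℕ)) R)
        = false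
  let Wr : (Fin n → Fin L) × (Fin n → Fin (2 * L)) → Finset (Fin L) := fun p =>
    univ.filter fun ζ : Fin L => P.Wrong R (fun i => p.1 i) (fun j => p.2 j) (hh p.1 p.2)
      (MM p.1 p.2) (L + (ζ : ℕ))
  have hWrsum : ∑ p : (Fin n → Fin L) × (Fin n → Fin (2 * L)), (Wr p).card =
      Nat.card {p : ((Fin n → Fin L) × (Fin n → Fin (2 * L))) × Fin L // P.Wrong R (fun i => p.1.1 i) (fun j => p.1.2 j) (hh p.1.1 p.1.2)
        (MM p.1.1 p.1.2) (L + p.2)} := by
    rw [Nat.card_eq_fintype_card, Fintype.card_subtype, card_filter]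
    refine Eq.trans ?_ (Fintype.sum_prod_type _).symm
    refine Fintype.sum_congr _ _ fun p => ?_
    simp only [Wr]
    rw [card_filter]
  have hWrF : ∀ p ζ, ζ ∈ Wr p ↔ ¬ (ζ ∉ Fa p ↔ ζ ∈ Sm p) := by
    intro p ζ
    simp only [Wr, Fa, Sm, mem_filter, mem_univ, true_and, Scheme.Wrong, reads_eq_real,
      Bool.not_eq_false]
  have hF1 : ∀ p, 3 * L ≤ 4 * ((Fa p).card + (Wr p).card) := by
    intro p
    have h1 := noCnt hL p.1 p.2
    have h2 : ((univ : Finset (Fin L)).filter fun ζ : Fin L =>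
        ¬ ∃ i j, (p.1 i : ℕ) + (p.2 j : ℕ) = L + (ζ : ℕ)) ⊆ Fa p ∪ Wr p := by
      intro ζ hζ
      have h3 : ζ ∉ Sm p := by
        simp only [Sm, mem_filter, mem_univ, true_and]
        exact (mem_filter.1 hζ).2
      rw [mem_union]
      by_cases h4 : ζ ∈ Fa p
      · exact Or.inl h4
      · right
        rw [hWrF]
        tauto
    have h5 := (card_le_card h2).trans (card_union_le _ _)
    calc 3 * L ≤ 4 * _ := h1
      _ ≤ _ := Nat.mul_le_mul_left _ (by convert h5)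
  have hF2 : ∀ p, ((Sm p).filter fun ζ => ζ ∈ Fa p).card ≤ (Wr p).card := by
    intro p
    refine card_le_card fun ζ hζ => ?_
    rw [mem_filter] at hζ
    rw [hWrF]
    tauto
  set W := ∑ p : (Fin n → Fin L) × (Fin n → Fin (2 * L)), (Wr p).card with hWdef
  rw [← hWrsum] at hW
  -- choice of the sample
  obtain ⟨b, G, hG1, hG2⟩ := chE (ι := (Fin n → Fin L) × (Fin n → Fin (2 * L)))
    (κ := Fin t → Fin S) L (V ^ r) (s ^ t) hL0 hVr
    (fun b p => (P.Nset s b a₀ R L (fun i => p.1 i) (fun j => p.2 j)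
      (hh p.1 p.2) (MM p.1 p.2)).card)
    (fun b p => ((P.Nset s b a₀ R L (fun i => p.1 i) (fun j => p.2 j)
      (hh p.1 p.2) (MM p.1 p.2)).filter fun ζ => ζ ∈ Sm p).card)
    (fun b p => (P.Pset v₀ b a₀ r R L
      (res (MM p.1 p.2) b : Fin t → Fin s → Fin V) (fun i => p.1 i)
      (hh p.1 p.2)).card)
    (fun b p => (card_le_univ _).trans (by simp))
    (by
      have h1 : ∀ p : (Fin n → Fin L) × (Fin n → Fin (2 * L)), (Fa p).card * s ^ t ≤ ∑ b : Fin t → Fin S,
          (P.Nset s b a₀ R L (fun i => p.1 i) (fun j => p.2 j) (hh p.1 p.2)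
            (MM p.1 p.2)).card := fun p =>
        cntN P hB hsS a₀ (fun i => p.1 i) (fun j => p.2 j) (hh p.1 p.2) (MM p.1 p.2) L (Fa p)
          (fun ζ hζ => (mem_filter.1 hζ).2)
      have h2 : (∑ p : (Fin n → Fin L) × (Fin n → Fin (2 * L)), (Fa p).card) * s ^ t ≤ ∑ p : (Fin n → Fin L) × (Fin n → Fin (2 * L)), ∑ b : Fin t → Fin S,
          (P.Nset s b a₀ R L (fun i => p.1 i) (fun j => p.2 j) (hh p.1 p.2)
            (MM p.1 p.2)).card := by
        rw [sum_mul]
        exact sum_le_sum fun p _ => h1 p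
      have h3 : Fintype.card ((Fin n → Fin L) × (Fin n → Fin (2 * L))) * (3 * L) ≤
          4 * (∑ p : (Fin n → Fin L) × (Fin n → Fin (2 * L)), (Fa p).card + W) := by
        rw [hWdef, ← sum_add_distrib, mul_sum, ← smul_eq_mul, ← card_univ, ← sum_const]
        exact sum_le_sum fun p _ => hF1 p
      set N := Fintype.card ((Fin n → Fin L) × (Fin n → Fin (2 * L)))
      set F := ∑ p : (Fin n → Fin L) × (Fin n → Fin (2 * L)), (Fa p).card
      have h4 : 5 * (L * N) ≤ 8 * F := by nlinarith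
      calc 5 * (L * s ^ t * N) = 5 * (L * N) * s ^ t := by ring
        _ ≤ 8 * F * s ^ t := Nat.mul_le_mul_right _ h4
        _ = 8 * (F * s ^ t) := by ring
        _ ≤ 8 * _ := Nat.mul_le_mul_left _ h2)
    (fun p => cntP P hB hsS v₀ a₀ (fun i => p.1 i) (hh p.1 p.2) (MM p.1 p.2) L)
    (by
      have h1 : ∀ p : (Fin n → Fin L) × (Fin n → Fin (2 * L)), ∑ b : Fin t → Fin S, ((P.Nset s b a₀ R L (fun i => p.1 i)
          (fun j => p.2 j) (hh p.1 p.2) (MM p.1 p.2)).filter fun ζ => ζ ∈ Sm p).card ≤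
            (Wr p).card * s ^ t := by
        intro p
        refine (cntE P hB hsS a₀ (fun i => p.1 i) (fun j => p.2 j) (hh p.1 p.2)
          (MM p.1 p.2) L (Sm p)).trans (Nat.mul_le_mul_right _ (le_trans ?_ (hF2 p)))
        refine card_le_card fun ζ hζ => ?_
        rw [mem_filter] at hζ ⊢
        exact ⟨hζ.1, mem_filter.2 ⟨mem_univ _, hζ.2⟩⟩
      calc 2 ^ 17 * ∑ p : (Fin n → Fin L) × (Fin n → Fin (2 * L)), ∑ b : Fin t → Fin S, _ ≤
            2 ^ 17 * ∑ p : (Fin n → Fin L) × (Fin n → Fin (2 * L)), (Wr p).card * s ^ t :=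
            Nat.mul_le_mul_left _ (sum_le_sum fun p _ => h1 p)
        _ = 2 ^ 17 * W * s ^ t := by rw [← sum_mul, mul_assoc]
        _ ≤ L * Fintype.card ((Fin n → Fin L) × (Fin n → Fin (2 * L))) * s ^ t :=
            Nat.mul_le_mul_right _ hW
        _ = _ := by ring)
  have hSt : 0 < S ^ t := by positivity
  have hcardκ : Fintype.card (Fin t → Fin S) = S ^ t := by simp
  rw [hcardκ] at hG1
  have hKN : ∀ p ∈ G, K ≤ (P.Nset s b a₀ R L (fun i => p.1 i) (fun j => p.2 j)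
      (hh p.1 p.2) (MM p.1 p.2)).card := by
    intro p hp
    have h1 := (hG2 p hp).1
    rw [hcardκ] at h1
    have h3 : 4 * (n ^ 2 * s ^ t) = s ^ t * L := by rw [hL]; ring
    have h4 : 4 * (S ^ t * K) ≤ 4 * (S ^ t * (P.Nset s b a₀ R L (fun i => p.1 i)
        (fun j => p.2 j) (hh p.1 p.2) (MM p.1 p.2)).card) := by
      have h5 : 2 * (S ^ t * K) ≤ n ^ 2 * s ^ t := by
        calc 2 * (S ^ t * K) = 2 * K * S ^ t := by ring
          _ ≤ _ := hKρ
      omega
    exact Nat.le_of_mul_le_mul_left (Nat.le_of_mul_le_mul_left h4 (by norm_num)) hSt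
  -- the maps e
  have hsub : ∀ σ : Fin H × (Fin t → Fin s → Fin V), ∀ X : Fin n → Fin L,
      ∃ e : Fin (32 * V ^ r * K) → Fin L, ∃ G' : Finset (Fin n → Fin (2 * L)),
        G' ⊆ (univ.filter fun Y => (X, Y) ∈ G ∧ hh X Y = σ.1 ∧
          (res (MM X Y) b : Fin t → Fin s → Fin V) = σ.2) ∧
        (univ.filter fun Y => (X, Y) ∈ G ∧ hh X Y = σ.1 ∧
          (res (MM X Y) b : Fin t → Fin s → Fin V) = σ.2).card ≤
            32 * V ^ r * G'.card ∧
        ∀ Y ∈ G', ∃ N : Finset (Fin L), (∀ z, z ∈ N ↔ z ∈ P.Nset s b a₀ R L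
            (fun i => X i) (fun j => Y j) σ.1 (MM X Y) ∧ ∃ k, e k = z) ∧ K ≤ N.card ∧
          ∀ M : Finset (Fin L), M ⊆ N →
            M ⊆ ((P.Nset s b a₀ R L (fun i => X i) (fun j => Y j) σ.1 (MM X Y)).filter
              fun ζ => ζ ∈ Sm (X, Y)) → 2 ^ 13 * M.card ≤ N.card := by
    rintro ⟨h, μ⟩ X
    refine subE (P.Pset v₀ b a₀ r R L μ (fun i => X i) h) _
      (fun Y => P.Nset s b a₀ R L (fun i => X i) (fun j => Y j) h (MM X Y))
      (fun Y => (P.Nset s b a₀ R L (fun i => X i) (fun j => Y j) h (MM X Y)).filter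
        fun ζ => ζ ∈ Sm (X, Y))
      (V ^ r) K (2 ^ 13) hVr hK ?_
    intro Y hY
    rw [mem_filter] at hY
    obtain ⟨-, hY1, hY2, hY3⟩ := hY
    simp only at hY2 hY3
    subst hY2 hY3
    refine ⟨nset_sub P hB v₀ a₀ b _ _ _ _ L, filter_subset _ _, hKN _ hY1,
      (hG2 _ hY1).2.1, ?_⟩
    have h6 := (hG2 _ hY1).2.2
    calc 2 * 2 ^ 13 * _ = 2 ^ 14 * _ := by norm_num
      _ ≤ _ := h6
  choose e G' hG'1 hG'2 hG'3 using hsub
  -- the sets E_σ
  have hEσ : ∀ σ : Fin H × (Fin t → Fin s → Fin V),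
      ((∑ X, (G' σ X).card : ℕ) : ℝ) ≤
        err2 n L K (32 * V ^ r * K) (V ^ R) * ((L : ℝ) ^ n * (2 * (L : ℝ)) ^ n) := by
    intro σ
    have h1 := one_sigma hL hn P hKn v₀ a₀ b hh MM σ.1 σ.2 (e σ) (K := K)
      ((univ : Finset ((Fin n → Fin L) × (Fin n → Fin (2 * L)))).filter
        fun p => p.2 ∈ G' σ p.1) (R := R)
      (by
        intro p hp
        rw [mem_filter] at hp
        have h2 := hG'1 σ p.1 hp.2
        rw [mem_filter] at h2
        obtain ⟨N, hN1, hN2, hN3⟩ := hG'3 σ p.1 p.2 hp.2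
        refine ⟨h2.2.2.1, h2.2.2.2, N, hN1, hN2, hN3 _ (filter_subset _ _) ?_⟩
        intro ζ hζ
        rw [Hit, mem_filter] at hζ
        rw [mem_filter]
        exact ⟨((hN1 ζ).1 hζ.1).1, mem_filter.2 ⟨mem_univ _, hζ.2⟩⟩)
    have h2 : ((univ : Finset ((Fin n → Fin L) × (Fin n → Fin (2 * L)))).filter
        fun p => p.2 ∈ G' σ p.1).card = ∑ X, (G' σ X).card := by
      rw [card_filter, ← univ_product_univ, sum_product]
      refine sum_congr rfl fun X _ => ?_
      rw [← card_filter]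
      congr 1
      ext Y
      simp
    rw [h2] at h1
    exact h1
  -- summation
  have hsum : G.card ≤ 32 * V ^ r * ∑ σ : Fin H × (Fin t → Fin s → Fin V),
      ∑ X, (G' σ X).card := by
    rw [mul_sum]
    calc G.card ≤ ∑ σ : Fin H × (Fin t → Fin s → Fin V), ∑ X,
        (univ.filter fun Y => (X, Y) ∈ G ∧ hh X Y = σ.1 ∧
          (res (MM X Y) b : Fin t → Fin s → Fin V) = σ.2).card := by
          rw [sum_comm]
          have hGc : G.card = ∑ X, (univ.filter fun Y => (X, Y) ∈ G).card := by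
            have : G = (univ : Finset ((Fin n → Fin L) × (Fin n → Fin (2 * L)))).filter
              fun p => p ∈ G := by ext; simp
            rw [this, card_filter, ← univ_product_univ, sum_product]
            refine sum_congr rfl fun X _ => ?_
            rw [← card_filter]
            simp
          rw [hGc]
          refine sum_le_sum fun X _ => ?_
          rw [← card_sigma]
          refine card_le_card_of_injOn (fun Y => ⟨(hh X Y,
            (res (MM X Y) b : Fin t → Fin s → Fin V)), Y⟩) ?_ ?_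
          · intro Y hY
            simp only [coe_filter, mem_univ, true_and, Set.mem_ofPred_eq] at hY
            simp [hY]
          · intro Y _ Y' _ h
            simp only [Sigma.mk.injEq] at h
            exact eq_of_heq h.2
      _ ≤ ∑ σ : Fin H × (Fin t → Fin s → Fin V), 32 * V ^ r * ∑ X, (G' σ X).card := by
          refine sum_le_sum fun σ _ => ?_
          rw [mul_sum]
          exact sum_le_sum fun X _ => hG'2 σ X
  have hSig : (Fintype.card (Fin H × (Fin t → Fin s → Fin V)) : ℝ) = H * ((V : ℝ) ^ s) ^ t := by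
    simp
  set Q : ℝ := (L : ℝ) ^ n * (2 * (L : ℝ)) ^ n with hQ
  have hQ0 : 0 < Q := by
    have : (0 : ℝ) < L := by exact_mod_cast hL0
    positivity
  have hι : (Fintype.card ((Fin n → Fin L) × (Fin n → Fin (2 * L))) : ℝ) = Q := by
    simp [hQ]
  have hfin : (s : ℝ) ^ t * Q ≤ (128 * (V : ℝ) ^ r * (H * ((V : ℝ) ^ s) ^ t) * (S : ℝ) ^ t *
      err2 n L K (32 * V ^ r * K) (V ^ R)) * Q := by
    calc (s : ℝ) ^ t * Q ≤ 4 * ((S : ℝ) ^ t * G.card) := by
          rw [← hι]; exact_mod_cast hG1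
      _ ≤ 4 * ((S : ℝ) ^ t * (32 * (V : ℝ) ^ r *
          ∑ σ : Fin H × (Fin t → Fin s → Fin V), ((∑ X, (G' σ X).card : ℕ) : ℝ))) := by
          gcongr
          exact_mod_cast hsum
      _ ≤ 4 * ((S : ℝ) ^ t * (32 * (V : ℝ) ^ r *
          ∑ _σ : Fin H × (Fin t → Fin s → Fin V),
            err2 n L K (32 * V ^ r * K) (V ^ R) * Q)) := by
          gcongr with σ
          exact hEσ σ
      _ = _ := by
          rw [sum_const, nsmul_eq_mul, card_univ, hSig]
          ring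
  exact le_of_mul_le_mul_right hfin hQ0

end Pool.Agent.JQ
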