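import Mathlib

/-!
The cell probe model with three memories for 3SUM-Indexing: joint cells, whose contents may depend
on both arrays, and one table of unlimited size for each of the two arrays.
-/

namespace Pool.Agent.JQ

/-- What a query reads next: the joint cell with address `a`, or a word of the table of the first
array, or a word of the table of the second array. -/
inductive Step (S : ℕ) where
  | joint (a : Fin S)
  | first
  | second

/-- A query algorithm for two arrays of `n` natural numbers, with `S` joint cells, words with `V`
possible values and a header with `H` possible values, which is known for free.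
`next h z l` is what is read next, where `h` is the header, `z` the query and `l` the list of the
words read so far, latest first. A word of the table of one array is an arbitrary function of this
array and of `h`, `z`, `l`; so the two tables have unlimited size. -/
structure Scheme (n S H V : ℕ) where
  next : Fin H → ℕ → List (Fin V) → Step S
  word₁ : (Fin n → ℕ) → Fin H → ℕ → List (Fin V) → Fin V
  word₂ : (Fin n → ℕ) → Fin H → ℕ → List (Fin V) → Fin V
  ans : Fin H → ℕ → List (Fin V) → Bool

variable {n S H V : ℕ}

/-- The words read in the first `k` steps of the query `z`, latest first, when the arrays are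
`A`, `B`, the header is `h` and the joint cells hold `M`. -/
def Scheme.reads (P : Scheme n S H V) (A B : Fin n → ℕ) (h : Fin H) (M : Fin S → Fin V)
    (z : ℕ) : ℕ → List (Fin V)
  | 0 => []
  | k + 1 =>
    (match P.next h z (P.reads A B h M z k) with
      | .joint a => M a
      | .first => P.word₁ A h z (P.reads A B h M z k)
      | .second => P.word₂ B h z (P.reads A B h M z k)) :: P.reads A B h M z k

/-- The number of joint cells read when the words read are `l`. -/
def Scheme.joints (P : Scheme n S H V) (h : Fin H) (z : ℕ) : List (Fin V) → ℕ
  | [] => 0
  | _ :: l => P.joints h z l + (match P.next h z l with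
      | .joint _ => 1
      | .first => 0
      | .second => 0)

/-- The number of words of the second table read when the words read are `l`. -/
def Scheme.seconds (P : Scheme n S H V) (h : Fin H) (z : ℕ) : List (Fin V) → ℕ
  | [] => 0
  | _ :: l => P.seconds h z l + (match P.next h z l with
      | .joint _ => 0
      | .first => 0
      | .second => 1)

/-- Among the first `R` reads of each query at most `t` are reads of joint cells, and at most `r`
words of the second table are read before the last of them: whenever a joint cell is read, fewer
than `t` joint cells and at most `r` words of the second table have been read before. (It is no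
restriction that this is asked for all lists `l`, also for those which never occur: `next` can be
changed there.) -/
def Scheme.Bounded (P : Scheme n S H V) (t r R : ℕ) : Prop :=
  ∀ (h : Fin H) (z : ℕ) (l : List (Fin V)) (a : Fin S), l.length < R →
    P.next h z l = .joint a → P.joints h z l < t ∧ P.seconds h z l ≤ r

/-- After `R` reads the query `z` is answered wrongly. -/
def Scheme.Wrong (P : Scheme n S H V) (R : ℕ) (A B : Fin n → ℕ) (h : Fin H) (M : Fin S → Fin V)
    (z : ℕ) : Prop :=
  ¬ (P.ans h z (P.reads A B h M z R) = true ↔ ∃ i j, A i + B j = z)

/-- 3SUM-Indexing is solved on average with error `η`, with `S` joint cells, words with `V` values,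
a header with `H` values and `R` reads per query, subject to `Bounded t r R`: header and joint cells
can be chosen for each pair of arrays such that for independent uniformly random
`X ∈ {0, ..., 4n² - 1}^n`, `Y ∈ {0, ..., 8n² - 1}^n`, `z ∈ {4n², ..., 8n² - 1}` the query `z` is
answered wrongly with probability at most `η`. -/
def AvgSolvable (n S H V t r R : ℕ) (η : ℝ) : Prop :=
  ∃ P : Scheme n S H V, P.Bounded t r R ∧
    ∃ (h : (Fin n → ℕ) → (Fin n → ℕ) → Fin H) (M : (Fin n → ℕ) → (Fin n → ℕ) → Fin S → Fin V),
      (Nat.card {p : (Fin n → Fin (4 * n ^ 2)) × (Fin n → Fin (8 * n ^ 2)) × Fin (4 * n ^ 2) //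
        P.Wrong R (fun i => p.1 i) (fun j => p.2.1 j)
          (h (fun i => p.1 i) (fun j => p.2.1 j)) (M (fun i => p.1 i) (fun j => p.2.1 j))
          (4 * n ^ 2 + p.2.2)} : ℝ) ≤
        η * ((4 * n ^ 2) ^ n * (8 * n ^ 2) ^ n * (4 * n ^ 2))

/-- 3SUM-Indexing for arrays of `n` integers in `{0, ..., U - 1}` is solved with a public random
string `ω` (uniform in a finite set, known to the preprocessing and to the query for free) and
error probability at most `η` for every query and every pair of arrays. -/
def RandSolvable (n U S H V t r R : ℕ) (η : ℝ) : Prop :=
  ∃ (m : ℕ) (P : Fin (m + 1) → Scheme n S H V), (∀ ω, (P ω).Bounded t r R) ∧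
    ∀ A B : Fin n → ℕ, (∀ i, A i < U) → (∀ j, B j < U) →
      ∃ (h : Fin (m + 1) → Fin H) (M : Fin (m + 1) → Fin S → Fin V), ∀ z : ℕ,
        (Nat.card {ω : Fin (m + 1) // (P ω).Wrong R A B (h ω) (M ω) z} : ℝ) ≤ η * (m + 1)

end Pool.Agent.JQ
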