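import Mathlib
import Pool.Agent.JQ.HDefs

namespace Pool.Agent.JQ

open Finset Pool.Agent.JP

open Real in
/-- PROOF. (Similar to `Pool/Agent/JP/Num1.lean`.) Suppose both fail. Put `v = V^r ≥ 1`,
`ell = 1 + log n + R log V ≥ 1`, `a` the bracket, `a ≥ 1` (all logarithms are nonnegative). So
`n > 2^44 a v ell` and `n^2 s^t > 2^44 a S^t`. Let `K = ⌈256 (a + 6)⌉₊`;
`256 (a + 6) ≤ K < 256 (a + 6) + 1 ≤ 2^11 a` and `K' = 32 v K ≤ 2^16 a v ≤ n`. Also
`2 K S^t ≤ 2^12 a S^t ≤ n^2 s^t`, so `hc K` applies. Since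
`V^r * H * V^(s t) * (S / s)^t = exp (a - 1)` (with `x = exp (log x)`), it says
`1 ≤ 128 exp (a - 1) * err2`. Each of the four exponentials in `err2` (the second one counts twice)
is at most `exp (-(a + 6))`: `K / 256 ≥ a + 6`; `n / 2^25 ≥ 2^19 a ≥ a + 6`; and
`(4 n^2)^K' * (V^R)^K' = exp (K' (log 4 + 2 log n + R log V))`, where
`log 4 + 2 log n + R log V ≤ 2 ell`, so the exponent is at most `2^17 a v ell ≤ n / 2^27`, and
`n / 2^27 - n / 2^25 ≤ - n / 2^27 ≤ - 2^17 a ≤ -(a + 6)`. So `1 ≤ 512 exp (-7) < 1`, as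
`exp 7 > 2.7^7 > 1000`. Contradiction. -/
theorem numE {n S H V t r R s : ℕ} (hn : 0 < n) (hH : 1 ≤ H) (hV : 1 ≤ V) (hs : 1 ≤ s)
    (hsS : s ≤ S)
    (hc : ∀ K : ℕ, 0 < K → 32 * V ^ r * K ≤ n → 2 * K * S ^ t ≤ n ^ 2 * s ^ t →
      (s : ℝ) ^ t ≤ 128 * (V : ℝ) ^ r * (H * ((V : ℝ) ^ s) ^ t) * (S : ℝ) ^ t *
        err2 n (4 * n ^ 2) K (32 * V ^ r * K) (V ^ R)) :
    (n : ℝ) ^ 2 * s ^ t ≤
      2 ^ 44 * (1 + log H + (t * s + r) * log V + t * log (S / s)) * S ^ t ∨
    (n : ℝ) ≤ 2 ^ 44 * (1 + log H + (t * s + r) * log V + t * log (S / s)) * V ^ r *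
      (1 + log n + R * log V) := by
  by_contra hcon
  rw [not_or, not_le, not_le] at hcon
  obtain ⟨hA, hB⟩ := hcon
  have hn1 : (1 : ℝ) ≤ n := by exact_mod_cast hn
  have hn0 : (0 : ℝ) < n := by linarith
  have hH1 : (1 : ℝ) ≤ H := by exact_mod_cast hH
  have hV1 : (1 : ℝ) ≤ V := by exact_mod_cast hV
  have hs1 : (1 : ℝ) ≤ s := by exact_mod_cast hs
  have hs0 : (0 : ℝ) < s := by linarith
  have hsS' : (s : ℝ) ≤ S := by exact_mod_cast hsS
  have hS0 : (0 : ℝ) < S := by linarith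
  have hV0 : (0 : ℝ) < V := by linarith
  have hH0 : (0 : ℝ) < H := by linarith
  have hSs : 1 ≤ (S : ℝ) / s := by
    rw [one_le_div hs0]
    exact hsS'
  have lH : 0 ≤ log H := Real.log_nonneg hH1
  have lV : 0 ≤ log V := Real.log_nonneg hV1
  have ln : 0 ≤ log n := Real.log_nonneg hn1
  have lS : 0 ≤ log (S / s) := Real.log_nonneg hSs
  set a : ℝ := 1 + log H + (t * s + r) * log V + t * log (S / s) with ha
  set v : ℝ := (V : ℝ) ^ r with hv
  set ell : ℝ := 1 + log n + R * log V with hell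
  have ha1 : 1 ≤ a := by
    have h1 : 0 ≤ (t * (s : ℝ) + r) * log V := by positivity
    have h2 : 0 ≤ t * log (S / s) := by positivity
    rw [ha]
    linarith
  have hv1 : 1 ≤ v := one_le_pow₀ hV1
  have hell1 : 1 ≤ ell := by
    have h1 : 0 ≤ R * log V := by positivity
    rw [hell]
    linarith
  have ha0 : 0 < a := by linarith
  have hv0 : 0 < v := by linarith
  have hell0 : 0 < ell := by linarith
  have hav : a ≤ a * v := le_mul_of_one_le_right ha0.le hv1
  have hav0 : 0 < a * v := by positivity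
  have havl : a * v ≤ a * v * ell := le_mul_of_one_le_right hav0.le hell1
  have hBn : 2 ^ 44 * (a * v * ell) < n := by
    have h1 : 2 ^ 44 * (a * v * ell) = 2 ^ 44 * a * v * ell := by ring
    rw [h1]
    exact hB
  set K : ℕ := ⌈256 * (a + 6)⌉₊ with hK
  have hK1 : 256 * (a + 6) ≤ K := Nat.le_ceil _
  have hK2 : (K : ℝ) < 256 * (a + 6) + 1 := Nat.ceil_lt_add_one (by linarith)
  have hK3 : (K : ℝ) ≤ 2 ^ 11 * a := by
    have : (2 : ℝ) ^ 11 = 2048 := by norm_num
    rw [this]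
    linarith
  have hK0 : 0 < K := by
    have : (0 : ℝ) < K := by linarith
    exact_mod_cast this
  have hK'r : (((32 * V ^ r * K : ℕ) : ℕ) : ℝ) = 32 * v * K := by
    push_cast
    rfl
  have hK'2 : 32 * v * (K : ℝ) ≤ 2 ^ 16 * (a * v) := by
    calc 32 * v * (K : ℝ) ≤ 32 * v * (2 ^ 11 * a) := by gcongr
      _ = 2 ^ 16 * (a * v) := by ring
  have hK'n : 32 * V ^ r * K ≤ n := by
    have h1 : (((32 * V ^ r * K : ℕ) : ℕ) : ℝ) ≤ n := by
      rw [hK'r]
      linarith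
    exact_mod_cast h1
  have hSt : (0 : ℝ) < (S : ℝ) ^ t := by positivity
  have hst : (0 : ℝ) < (s : ℝ) ^ t := by positivity
  have hKS : 2 * K * S ^ t ≤ n ^ 2 * s ^ t := by
    have h1 : 2 * (K : ℝ) * S ^ t ≤ (n : ℝ) ^ 2 * s ^ t := by
      have h2 : 2 * (K : ℝ) * S ^ t ≤ 2 * (2 ^ 11 * a) * S ^ t := by gcongr
      have h3 : 2 * (2 ^ 11 * a) * (S : ℝ) ^ t ≤ 2 ^ 44 * a * S ^ t := by
        have h4 : 2 * (2 ^ 11 * a) ≤ 2 ^ 44 * a := by
          have h5 : (2 : ℝ) ^ 11 * 2 ≤ 2 ^ 44 := by norm_num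
          nlinarith
        exact mul_le_mul_of_nonneg_right h4 hSt.le
      linarith
    exact_mod_cast h1
  have hmain := hc K hK0 hK'n hKS
  -- the exponential
  have hE : exp (a - 1) = H * (V : ℝ) ^ (t * s + r) * ((S : ℝ) / s) ^ t := by
    have h1 : a - 1 = log H + ((t * s + r : ℕ) : ℝ) * log V + (t : ℝ) * log (S / s) := by
      rw [ha]
      push_cast
      ring
    rw [h1, Real.exp_add, Real.exp_add, Real.exp_log hH0, Real.exp_nat_mul, Real.exp_nat_mul,
      Real.exp_log hV0, Real.exp_log (by positivity)]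
  have hX : 128 * v * (H * ((V : ℝ) ^ s) ^ t) * (S : ℝ) ^ t = s ^ t * (128 * exp (a - 1)) := by
    rw [hE, div_pow, hv, ← pow_mul, pow_add, mul_comm t s]
    field_simp
  rw [hX] at hmain
  have hone : 1 ≤ 128 * exp (a - 1) * err2 n (4 * n ^ 2) K (32 * V ^ r * K) (V ^ R) := by
    have h1 : (s : ℝ) ^ t * 1 ≤
        s ^ t * (128 * exp (a - 1) * err2 n (4 * n ^ 2) K (32 * V ^ r * K) (V ^ R)) := by
      calc (s : ℝ) ^ t * 1 = s ^ t := mul_one _
        _ ≤ s ^ t * (128 * exp (a - 1)) * err2 n (4 * n ^ 2) K (32 * V ^ r * K) (V ^ R) := hmain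
        _ = _ := by ring
    exact le_of_mul_le_mul_left h1 hst
  -- the error term
  have g1 : exp (-((K : ℝ) / 256)) ≤ exp (-(a + 6)) := by
    refine Real.exp_le_exp.2 ?_
    linarith
  have hp25 : (2 : ℝ) ^ 25 = 33554432 := by norm_num
  have hp27 : (2 : ℝ) ^ 27 = 134217728 := by norm_num
  have hp44 : (2 : ℝ) ^ 44 = 17592186044416 := by norm_num
  have hp16 : (2 : ℝ) ^ 16 = 65536 := by norm_num
  have g2 : exp (-((n : ℝ) / 2 ^ 25)) ≤ exp (-(a + 6)) := by
    refine Real.exp_le_exp.2 ?_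
    rw [hp25]
    rw [hp44] at hBn
    linarith
  have g3 : (((4 * n ^ 2 : ℕ) : ℕ) : ℝ) ^ (32 * V ^ r * K) *
      (((V ^ R : ℕ) : ℕ) : ℝ) ^ (32 * V ^ r * K) * exp (-((n : ℝ) / 2 ^ 25)) ≤
      exp (-(a + 6)) := by
    have e1 : (((4 * n ^ 2 : ℕ) : ℕ) : ℝ) = exp (log 4 + 2 * log n) := by
      rw [Real.exp_add, Real.exp_log (by norm_num), two_mul, Real.exp_add, Real.exp_log hn0]
      push_cast
      ring
    have e2 : (((V ^ R : ℕ) : ℕ) : ℝ) = exp (R * log V) := by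
      rw [Real.exp_nat_mul, Real.exp_log hV0]
      push_cast
      rfl
    rw [e1, e2, ← mul_pow, ← Real.exp_add, ← Real.exp_nat_mul, ← Real.exp_add, hK'r]
    refine Real.exp_le_exp.2 ?_
    have l4 : log 4 ≤ 2 := by
      have h1 : log 4 = 2 * log 2 := by
        rw [show (4 : ℝ) = 2 ^ 2 by norm_num, Real.log_pow]
        norm_num
      have h2 := Real.log_two_lt_d9
      rw [h1]
      linarith
    have h1 : log 4 + 2 * log n + R * log V ≤ 2 * ell := by
      have h2 : 0 ≤ R * log V := by positivity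
      rw [hell]
      linarith
    have h10 : 0 ≤ log 4 + 2 * log n + R * log V := by
      have h2 : 0 ≤ R * log V := by positivity
      have h3 : 0 ≤ log 4 := Real.log_nonneg (by norm_num)
      linarith
    have h2 : 32 * v * (K : ℝ) * (log 4 + 2 * log n + R * log V) ≤
        2 ^ 16 * (a * v) * (2 * ell) :=
      mul_le_mul hK'2 h1 h10 (by positivity)
    have h3 : 2 ^ 16 * (a * v) * (2 * ell) = 131072 * (a * v * ell) := by
      rw [hp16]
      ring
    rw [h3] at h2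
    rw [hp25]
    rw [hp44] at hBn
    linarith
  have herr : err2 n (4 * n ^ 2) K (32 * V ^ r * K) (V ^ R) ≤ 4 * exp (-(a + 6)) := by
    unfold err2
    linarith
  have h1 : 128 * exp (a - 1) * err2 n (4 * n ^ 2) K (32 * V ^ r * K) (V ^ R) ≤
      128 * exp (a - 1) * (4 * exp (-(a + 6))) :=
    mul_le_mul_of_nonneg_left herr (by positivity)
  have h2 : 128 * exp (a - 1) * (4 * exp (-(a + 6))) = 512 * exp (-7) := by
    have h3 : exp (a - 1) * exp (-(a + 6)) = exp (-7) := by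
      rw [← Real.exp_add]
      congr 1
      ring
    calc 128 * exp (a - 1) * (4 * exp (-(a + 6))) = 512 * (exp (a - 1) * exp (-(a + 6))) := by
          ring
      _ = 512 * exp (-7) := by rw [h3]
  have h3 : 512 * exp (-7) < 1 := by
    have h4 : (2.7 : ℝ) ^ 7 ≤ exp 7 := by
      have h5 : exp 7 = exp 1 ^ 7 := by
        rw [← Real.exp_nat_mul]
        norm_num
      rw [h5]
      have h6 := Real.exp_one_gt_d9
      gcongr
      linarith
    have h7 : (512 : ℝ) < exp 7 := lt_of_lt_of_le (by norm_num) h4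
    rw [Real.exp_neg, ← div_eq_mul_inv, div_lt_one (Real.exp_pos 7)]
    exact h7
  linarith

end Pool.Agent.JQ
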