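import Mathlib
import Pool.Agent.JQ.Defs

namespace Pool.Agent.JQ

open Finset

private theorem RandA_card {α : Type*} [Fintype α] (p : α → Prop) [DecidablePred p] :
    (Nat.card {x : α // p x} : ℝ) = ∑ x, if p x then (1 : ℝ) else 0 := by
  rw [Nat.card_eq_fintype_card, Fintype.card_subtype, Finset.card_filter]
  push_cast
  rfl

/-- Averaging over the random string.
PROOF. Let `m`, `P`, and for all arrays with entries below `U` let `h A B ω`, `M A B ω` be as in
`RandSolvable` (for other arrays take arbitrary values: `Fin H` and `Fin V` are not empty because of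
the arrays `0`; if `S = 0` the function `M` is trivial; `open Classical`, `if ... then ... else`). For
every triple `(X, Y, ζ)` (entries of `X`, `Y` are below `8 n^2 ≤ U`) at most `η (m + 1)` of the `ω` are
wrong. So the number of the pairs (triple, `ω`) with a wrong answer is at most
`η (m + 1) * #triples`, hence for some `ω` the number of the wrong triples is at most
`η * #triples`, and `#triples = (4n²)^n (8n²)^n (4n²)`. (For `n = 0` there are no triples, as
`Fin (4 * 0 ^ 2)` is empty, fine.) -/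
theorem rand_avg {n U S H V t r R : ℕ} {η : ℝ} (hU : 8 * n ^ 2 ≤ U) (hU0 : 0 < U)
    (h : RandSolvable n U S H V t r R η) : AvgSolvable n S H V t r R η := by
  classical
  obtain ⟨m, P, hP, hall⟩ := h
  have hall' : ∀ A B : Fin n → ℕ, ∃ (h : Fin (m + 1) → Fin H) (M : Fin (m + 1) → Fin S → Fin V),
      (∀ i, A i < U) → (∀ j, B j < U) → ∀ z : ℕ,
        (Nat.card {ω : Fin (m + 1) // (P ω).Wrong R A B (h ω) (M ω) z} : ℝ) ≤ η * (m + 1) := by
    intro A B
    by_cases hA : (∀ i, A i < U) ∧ (∀ j, B j < U)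
    · obtain ⟨h, M, hM⟩ := hall A B hA.1 hA.2
      exact ⟨h, M, fun _ _ => hM⟩
    · obtain ⟨h, M, -⟩ := hall (fun _ => 0) (fun _ => 0) (fun _ => hU0) (fun _ => hU0)
      exact ⟨h, M, fun h1 h2 => absurd ⟨h1, h2⟩ hA⟩
  choose hh MM hM using hall'
  -- wrong answers
  let W : Fin (m + 1) → ((Fin n → Fin (4 * n ^ 2)) × (Fin n → Fin (8 * n ^ 2)) ×
      Fin (4 * n ^ 2)) → Prop := fun ω p =>
    (P ω).Wrong R (fun i => p.1 i) (fun j => p.2.1 j)
      (hh (fun i => p.1 i) (fun j => p.2.1 j) ω) (MM (fun i => p.1 i) (fun j => p.2.1 j) ω)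
      (4 * n ^ 2 + p.2.2)
  have h1 : ∀ p, ∑ ω, (if W ω p then (1 : ℝ) else 0) ≤ η * (m + 1) := by
    intro p
    rw [← RandA_card]
    refine hM _ _ (fun i => ?_) (fun j => ?_) _
    · have := (p.1 i).2
      show ((p.1 i : Fin (4 * n ^ 2)) : ℕ) < U
      omega
    · have := (p.2.1 j).2
      show ((p.2.1 j : Fin (8 * n ^ 2)) : ℕ) < U
      omega
  have h2 : ∑ ω, ∑ p, (if W ω p then (1 : ℝ) else 0) ≤ ∑ _ω : Fin (m + 1),
      η * ((4 * (n : ℝ) ^ 2) ^ n * (8 * n ^ 2) ^ n * (4 * n ^ 2)) := by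
    rw [Finset.sum_comm]
    refine (Finset.sum_le_sum fun p _ => h1 p).trans (le_of_eq ?_)
    rw [Finset.sum_const, Finset.sum_const, Finset.card_univ, Finset.card_univ]
    simp only [Fintype.card_prod, Fintype.card_pi, Fintype.card_fin, Finset.prod_const,
      Finset.card_univ, nsmul_eq_mul]
    push_cast
    ring
  obtain ⟨ω, -, hω⟩ := Finset.exists_le_of_sum_le (Finset.univ_nonempty) h2
  refine ⟨P ω, hP ω, fun A B => hh A B ω, fun A B => MM A B ω, ?_⟩
  refine le_trans (le_of_eq ?_) hω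
  rw [← RandA_card]

end Pool.Agent.JQ
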