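import Mathlib
import Pool.Agent.JQ.CountE
import Pool.Agent.JQ.NumE
import Pool.Agent.JQ.AsyG
import Pool.Agent.JQ.RandA

namespace Pool.Agent.JQ

open Finset Real

theorem wrong_card (n L m : ℕ) (hm : m = 2 * L) (W : (Fin n → ℕ) → (Fin n → ℕ) → ℕ → Prop) :
    Nat.card {p : ((Fin n → Fin L) × (Fin n → Fin (2 * L))) × Fin L //
      W (fun i => p.1.1 i) (fun j => p.1.2 j) (L + p.2)} =
    Nat.card {p : (Fin n → Fin L) × (Fin n → Fin m) × Fin L //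
      W (fun i => p.1 i) (fun j => p.2.1 j) (L + p.2.2)} := by
  subst hm
  exact Nat.card_congr (Equiv.subtypeEquiv (Equiv.prodAssoc _ _ _) fun p => Iff.rfl)

theorem avg₁ {n S H V t r R s : ℕ} (hn : 1 ≤ n) (hs : 1 ≤ s)
    (hsS : s ≤ S) (hsol : AvgSolvable n S H V t r R (1 / 2 ^ 17)) :
    (n : ℝ) ^ 2 * s ^ t ≤
      2 ^ 44 * (1 + log H + (t * s + r) * log V + t * log (S / s)) * S ^ t ∨
    (n : ℝ) ≤ 2 ^ 44 * (1 + log H + (t * s + r) * log V + t * log (S / s)) * V ^ r *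
      (1 + log n + R * log V) := by
  obtain ⟨P, hB, h, M, hW⟩ := hsol
  have hH : 1 ≤ H := (h (fun _ => 0) (fun _ => 0)).pos
  have hV : 1 ≤ V := (M (fun _ => 0) (fun _ => 0) ⟨0, by omega⟩).pos
  refine numE hn hH hV hs hsS (fun K hK hKn hKρ => ?_)
  refine countE hn rfl (by omega) hsS P hB (fun X Y => h (fun i => X i) (fun j => Y j))
    (fun X Y => M (fun i => X i) (fun j => Y j)) ?_ hK hKn hKρ
  rw [wrong_card n (4 * n ^ 2) (8 * n ^ 2) (by ring)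
    (fun A B z => P.Wrong R A B (h A B) (M A B) z)]
  have h1 : (2 : ℝ) ^ 17 * Nat.card {p : (Fin n → Fin (4 * n ^ 2)) ×
      (Fin n → Fin (8 * n ^ 2)) × Fin (4 * n ^ 2) //
        P.Wrong R (fun i => p.1 i) (fun j => p.2.1 j)
          (h (fun i => p.1 i) (fun j => p.2.1 j)) (M (fun i => p.1 i) (fun j => p.2.1 j))
          (4 * n ^ 2 + p.2.2)} ≤ (4 * n ^ 2) ^ n * (8 * n ^ 2) ^ n * (4 * n ^ 2) := by
    have h2 := mul_le_mul_of_nonneg_left hW (by positivity : (0 : ℝ) ≤ 2 ^ 17)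
    refine h2.trans (le_of_eq ?_)
    ring
  have h3 : 2 ^ 17 * Nat.card {p : (Fin n → Fin (4 * n ^ 2)) ×
      (Fin n → Fin (8 * n ^ 2)) × Fin (4 * n ^ 2) //
        P.Wrong R (fun i => p.1 i) (fun j => p.2.1 j)
          (h (fun i => p.1 i) (fun j => p.2.1 j)) (M (fun i => p.1 i) (fun j => p.2.1 j))
          (4 * n ^ 2 + p.2.2)} ≤ (4 * n ^ 2) ^ n * (8 * n ^ 2) ^ n * (4 * n ^ 2) := by
    exact_mod_cast h1
  refine h3.trans (le_of_eq ?_)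
  simp only [Fintype.card_prod, Fintype.card_fun, Fintype.card_fin]
  rw [show 2 * (4 * n ^ 2) = 8 * n ^ 2 by ring]
  ring

theorem avg₂ (t C : ℕ) (ε : ℝ) (ht : 1 ≤ t) (hε : 0 < ε) : ∃ n₀ : ℕ,
    ∀ n S H V r R : ℕ, n₀ ≤ n → 1 ≤ S → 1 ≤ R →
      (R : ℝ) * V ^ r ≤ (n : ℝ) ^ (1 - ε) → V ≤ n ^ C →
      log H ≤ (n : ℝ) ^ (1 - ε) / (R * V ^ r) →
      AvgSolvable n S H V t r R (1 / 2 ^ 17) →
      (n : ℝ) ^ ((t : ℝ) + 1 - ε) ≤ (S : ℝ) ^ t * (R * V ^ r) ^ (t - 1) := by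
  obtain ⟨n₀, h⟩ := asyG t C ht ε hε
  refine ⟨n₀ + 1, fun n S H V r R hn hS hR hW hV hH hsol => ?_⟩
  have hsol' := hsol
  obtain ⟨P, hB, h', M, -⟩ := hsol
  have hH1 : 1 ≤ H := (h' (fun _ => 0) (fun _ => 0)).pos
  have hV1 : 1 ≤ V := (M (fun _ => 0) (fun _ => 0) ⟨0, by omega⟩).pos
  exact h n S H V r R (by omega) hS hH1 hV1 hR hW hV hH
    (fun s hs hsS => avg₁ (by omega) hs hsS hsol')

end Pool.Agent.JQ
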